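import Pool.Agent.Helper80.Width.Region

/-!
The basic inequality for coefficients in a sector.
-/

set_option autoImplicit false

open Metric Set Complex

namespace Pool.Agent.Helper80.Width

/-- sum of the absolute values of the terms -/
noncomputable def WW (b : ℕ → ℝ) (n : ℕ) (σ : ℝ) : ℝ := ∑ k ∈ Finset.range n, b k * Real.exp (k * σ)

theorem EE_eq_sum (a : ℕ → ℂ) (n : ℕ) (s : ℂ) :
    EE a n s = ∑ k ∈ Finset.range n, a k * (exp s) ^ k := by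
  unfold EE
  refine Finset.sum_congr rfl fun k _ => ?_
  rw [← Complex.exp_nat_mul]

/-- the zero-free condition on all partial sums -/
def ZF (ρ K : ℝ) (a : ℕ → ℂ) : Prop :=
  ∀ n : ℕ, 1 ≤ n → ∀ z : ℂ, Reg ρ K z → ∑ k ∈ Finset.range (n + 1), a k * z ^ k ≠ 0

theorem EE_ne {ρ K : ℝ} (hρ : 0 < ρ) (hK : 0 < K) {a : ℕ → ℂ} (hZ : ZF ρ K a) (ha0 : a 0 ≠ 0)
    {n : ℕ} (hn : 1 ≤ n) (σ : ℝ) {w : ℂ} (hw : w ∈ ball (0:ℂ) 1) :
    EE a n (σ + ((1 / BB ρ K σ : ℝ) : ℂ) * w) ≠ 0 := by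
  rcases Nat.lt_or_ge 1 n with h | h
  · obtain ⟨m, rfl⟩ : ∃ m, n = m + 1 := ⟨n - 1, by omega⟩
    rw [EE_eq_sum]
    exact hZ m (by omega) _ (reg_exp hρ hK σ hw)
  · have : n = 1 := by omega
    subst this
    simpa [EE] using ha0

/-- basic inequality -/
theorem basic_two {ρ K : ℝ} (hρ : 0 < ρ) (hK : 0 < K) {a : ℕ → ℂ} (hZ : ZF ρ K a) (ha0 : a 0 ≠ 0)
    {c : ℝ} (hc : 0 < c) (hsec : ∀ k, c * ‖a k‖ ≤ (a k).re) :
    ∃ D : ℝ, 1 ≤ D ∧ ∀ (n : ℕ) (σ : ℝ), 1 ≤ n → a n ≠ 0 →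
      ∑ k ∈ Finset.range n, ((n:ℝ) - k) ^ 2 * (‖a k‖ * Real.exp (k * σ)) ≤
      D * BB ρ K σ ^ 2 * (1 + |Real.log (‖a n‖ * Real.exp (n * σ) / WW (fun k => ‖a k‖) n σ)|) ^ 2 *
        WW (fun k => ‖a k‖) n σ := by
  obtain ⟨C, hC, hb⟩ := basic_one
  have hc1 : c ≤ 1 := by
    have h1 := hsec 0
    have h2 : (a 0).re ≤ ‖a 0‖ := Complex.re_le_norm _
    have h3 : 0 < ‖a 0‖ := norm_pos_iff.2 ha0
    nlinarith
  set l : ℝ := Real.log (1 / c) with hl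
  have hl0 : 0 ≤ l := Real.log_nonneg (by rw [le_div_iff₀ hc]; linarith)
  refine ⟨2 * C ^ 2 * (1 + l) ^ 2 / c, ?_, ?_⟩
  · rw [le_div_iff₀ hc]
    nlinarith [mul_pos (by positivity : 0 < C ^ 2) (by positivity : 0 < (1 + l) ^ 2), sq_nonneg l]
  intro n σ hn han
  set B := BB ρ K σ with hB
  have hB2 : 2 < B := BB_pos hK σ
  set W := WW (fun k => ‖a k‖) n σ with hW
  set E := EE a n σ with hE
  have hterm : ∀ (d : ℕ → ℝ), (∀ k, 0 ≤ d k) →
      c * ∑ k ∈ Finset.range n, d k * (‖a k‖ * Real.exp (k * σ)) ≤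
      ‖∑ k ∈ Finset.range n, (d k : ℂ) * (a k * exp (k * σ))‖ := by
    intro d hd
    refine le_trans ?_ (Complex.re_le_norm _)
    rw [Complex.re_sum, Finset.mul_sum]
    refine Finset.sum_le_sum fun k _ => ?_
    have e1 : exp ((k:ℂ) * (σ:ℂ)) = ((Real.exp (k * σ) : ℝ) : ℂ) := by push_cast; rfl
    rw [e1]
    have e2 : ((d k : ℂ) * (a k * ((Real.exp (k * σ) : ℝ) : ℂ))).re =
        d k * ((a k).re * Real.exp (k * σ)) := by
      rw [Complex.re_ofReal_mul, Complex.re_mul_ofReal]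
    rw [e2]
    have h1 := hsec k
    have h2 := Real.exp_pos (k * σ)
    have h3 := hd k
    calc c * (d k * (‖a k‖ * Real.exp (k * σ))) = d k * (c * ‖a k‖ * Real.exp (k * σ)) := by ring
      _ ≤ _ := by gcongr
  have hW0 : 0 < W := by
    rw [hW, WW]
    refine Finset.sum_pos' (fun k _ => by positivity) ⟨0, Finset.mem_range.2 (by omega), ?_⟩
    have := norm_pos_iff.2 ha0
    positivity
  have hEW : c * W ≤ ‖E‖ := by
    have := hterm (fun _ => 1) (fun _ => zero_le_one)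
    simpa [hW, hE, WW, EE] using this
  have hEW' : ‖E‖ ≤ W := by
    rw [hE, EE, hW, WW]
    refine (norm_sum_le _ _).trans (Finset.sum_le_sum fun k _ => ?_)
    rw [norm_mul, Complex.norm_exp]
    simp
  have hE0 : 0 < ‖E‖ := lt_of_lt_of_le (by positivity) hEW
  have hEne : E ≠ 0 := norm_pos_iff.1 hE0
  obtain ⟨b1, b2⟩ := hb a n σ (1 / B) (by positivity) han
    (fun w hw => EE_ne hρ hK hZ ha0 hn σ hw) (fun w hw => EE_ne hρ hK hZ ha0 (by omega) σ hw)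
  rw [← hE] at b1 b2
  set u := |Real.log ‖a n * exp (n * σ) / E‖| with hu
  set v := |Real.log (‖a n‖ * Real.exp (n * σ) / W)| with hv
  have huv : u ≤ v + l := by
    have e1 : ‖a n * exp (n * σ) / E‖ = ‖a n‖ * Real.exp (n * σ) / W * (W / ‖E‖) := by
      rw [norm_div, norm_mul, Complex.norm_exp]
      have : ((n:ℂ) * (σ:ℂ)).re = n * σ := by simp
      rw [this]
      field_simp
    have h0 : 0 < ‖a n‖ := norm_pos_iff.2 han
    rw [hu, e1, Real.log_mul (by positivity) (by positivity)]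
    refine (abs_add_le _ _).trans ?_
    have h1 : 0 ≤ Real.log (W / ‖E‖) := Real.log_nonneg (by rw [le_div_iff₀ hE0]; linarith)
    have h2 : Real.log (W / ‖E‖) ≤ l := by
      apply Real.log_le_log (by positivity)
      rw [div_le_div_iff₀ hE0 hc]
      linarith
    rw [abs_of_nonneg h1]
    linarith
  have hv0 : 0 ≤ v := abs_nonneg _
  have hu0 : 0 ≤ u := abs_nonneg _
  set μ := EE (fun k => k * a k) n σ / E with hμ
  set ν := EE (fun k => k * (k * a k)) n σ / E with hν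
  have hsum : ∑ k ∈ Finset.range n, ((((n:ℝ) - k) ^ 2 : ℝ) : ℂ) * (a k * exp (k * σ)) =
      E * (((n:ℂ) - μ) ^ 2 + (ν - μ ^ 2)) := by
    have e1 : E * (((n:ℂ) - μ) ^ 2 + (ν - μ ^ 2)) = n ^ 2 * E - 2 * n * (E * μ) + E * ν := by ring
    have e2 : E * μ = EE (fun k => k * a k) n σ := by rw [hμ]; field_simp
    have e3 : E * ν = EE (fun k => k * (k * a k)) n σ := by rw [hν]; field_simp
    rw [e1, e2, e3, hE, EE, EE, EE, Finset.mul_sum, Finset.mul_sum, ← Finset.sum_sub_distrib,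
      ← Finset.sum_add_distrib]
    refine Finset.sum_congr rfl fun k _ => ?_
    push_cast
    ring
  have hmain := hterm (fun k => ((n:ℝ) - k) ^ 2) (fun k => sq_nonneg _)
  rw [hsum, norm_mul] at hmain
  have hB' : C / (1 / B) = C * B := by field_simp
  have hB'' : C / (1 / B) ^ 2 = C * B ^ 2 := by field_simp
  rw [hB'] at b1
  rw [hB''] at b2
  have hbd : ‖((n:ℂ) - μ) ^ 2 + (ν - μ ^ 2)‖ ≤ 2 * C ^ 2 * B ^ 2 * (1 + u) ^ 2 := by
    refine (norm_add_le _ _).trans ?_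
    rw [norm_pow]
    have h1 : ‖(n:ℂ) - μ‖ ^ 2 ≤ (C * B * (1 + u)) ^ 2 := by
      apply pow_le_pow_left₀ (norm_nonneg _) b1
    have h2 : C * B ^ 2 * (1 + u) ≤ C ^ 2 * B ^ 2 * (1 + u) ^ 2 := by
      have h3 : C * (1 + u) ≤ (C * (1 + u)) ^ 2 := by
        have : 1 ≤ C * (1 + u) := by nlinarith
        nlinarith
      have h4 : 0 ≤ B ^ 2 := sq_nonneg _
      nlinarith
    calc ‖(n:ℂ) - μ‖ ^ 2 + ‖ν - μ ^ 2‖ ≤ (C * B * (1 + u)) ^ 2 + C ^ 2 * B ^ 2 * (1 + u) ^ 2 := by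
          linarith
      _ = _ := by ring
  have hul : 1 + u ≤ (1 + l) * (1 + v) := by nlinarith
  have h5 : (1 + u) ^ 2 ≤ ((1 + l) * (1 + v)) ^ 2 := pow_le_pow_left₀ (by positivity) hul 2
  have h6 : c * ∑ k ∈ Finset.range n, ((n:ℝ) - k) ^ 2 * (‖a k‖ * Real.exp (k * σ)) ≤
      W * (2 * C ^ 2 * B ^ 2 * ((1 + l) * (1 + v)) ^ 2) := by
    refine hmain.trans ?_
    apply mul_le_mul hEW' _ (norm_nonneg _) hW0.le
    refine hbd.trans ?_
    gcongr
  have h7 : ∑ k ∈ Finset.range n, ((n:ℝ) - k) ^ 2 * (‖a k‖ * Real.exp (k * σ)) ≤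
      W * (2 * C ^ 2 * B ^ 2 * ((1 + l) * (1 + v)) ^ 2) / c := by
    rw [le_div_iff₀ hc]; linarith
  refine h7.trans (le_of_eq ?_)
  ring

end Pool.Agent.Helper80.Width
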