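import Pool.Agent.Helper80.Width.Landau

/-!
The logarithmic coordinate and the basic inequality.
-/

set_option autoImplicit false

open Metric Set Complex

namespace Pool.Agent.Helper80.Width

/-- partial sums in the exponential variable -/
noncomputable def EE (a : ℕ → ℂ) (n : ℕ) (s : ℂ) : ℂ := ∑ k ∈ Finset.range n, a k * exp (k * s)

theorem hasDerivAt_EE (a : ℕ → ℂ) (n : ℕ) (s : ℂ) :
    HasDerivAt (EE a n) (EE (fun k => k * a k) n s) s := by
  unfold EE
  apply HasDerivAt.fun_sum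
  intro k _
  have h1 : HasDerivAt (fun s : ℂ => (k:ℂ) * s) ((k:ℂ) * 1) s := (hasDerivAt_id s).const_mul _
  have h2 := (h1.cexp).const_mul (a k)
  refine h2.congr_deriv ?_
  beta_reduce
  ring

theorem EE_succ (a : ℕ → ℂ) (n : ℕ) (s : ℂ) :
    EE a (n + 1) s = EE a n s + a n * exp (n * s) := by
  simp [EE, Finset.sum_range_succ]

/-- first form of the basic inequality -/
theorem basic_one : ∃ C : ℝ, 1 ≤ C ∧ ∀ (a : ℕ → ℂ) (n : ℕ) (σ R : ℝ), 0 < R → a n ≠ 0 →
    (∀ w ∈ ball (0:ℂ) 1, EE a n (σ + R * w) ≠ 0) →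
    (∀ w ∈ ball (0:ℂ) 1, EE a (n + 1) (σ + R * w) ≠ 0) →
    ‖(n:ℂ) - EE (fun k => k * a k) n σ / EE a n σ‖ ≤
      C / R * (1 + |Real.log ‖a n * exp (n * σ) / EE a n σ‖|) ∧
    ‖EE (fun k => k * (k * a k)) n σ / EE a n σ - (EE (fun k => k * a k) n σ / EE a n σ) ^ 2‖ ≤
      C / R ^ 2 * (1 + |Real.log ‖a n * exp (n * σ) / EE a n σ‖|) := by
  obtain ⟨C, hC, h⟩ := log_deriv_bound
  refine ⟨C, hC, ?_⟩
  intro a n σ R hR han h1 h2
  have haff : ∀ w : ℂ, HasDerivAt (fun w : ℂ => (σ : ℂ) + R * w) R w := by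
    intro w
    have := ((hasDerivAt_id w).const_mul (R : ℂ)).const_add (σ : ℂ)
    simpa using this
  set f : ℂ → ℂ := fun w => a n * exp (n * (σ + R * w)) / EE a n (σ + R * w) with hf
  have hfd : ∀ w ∈ ball (0:ℂ) 1, HasDerivAt f (f w * (R * (n -
      EE (fun k => k * a k) n (σ + R * w) / EE a n (σ + R * w)))) w := by
    intro w hw
    have e1 : HasDerivAt (fun w : ℂ => a n * exp (n * ((σ : ℂ) + R * w)))
        (a n * (exp (n * ((σ : ℂ) + R * w)) * (n * R))) w :=
      (((haff w).const_mul (n : ℂ)).cexp).const_mul (a n)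
    have e2 : HasDerivAt (fun w : ℂ => EE a n ((σ : ℂ) + R * w))
        (EE (fun k => k * a k) n (σ + R * w) * R) w := by
      have := (hasDerivAt_EE a n (σ + R * w)).comp w (haff w)
      exact this
    have e3 := e1.div e2 (h1 w hw)
    have h1w := h1 w hw
    refine e3.congr_deriv ?_
    simp only [hf]
    field_simp
  have hfD : DifferentiableOn ℂ f (ball 0 1) :=
    fun w hw => (hfd w hw).differentiableAt.differentiableWithinAt
  have hf0 : ∀ w ∈ ball (0:ℂ) 1, f w ≠ 0 := by
    intro w hw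
    exact div_ne_zero (mul_ne_zero han (exp_ne_zero _)) (h1 w hw)
  have hf1 : ∀ w ∈ ball (0:ℂ) 1, f w ≠ -1 := by
    intro w hw hcon
    apply h2 w hw
    rw [EE_succ]
    simp only [hf] at hcon
    rw [div_eq_iff (h1 w hw)] at hcon
    rw [hcon]; ring
  obtain ⟨L, hL, hL'⟩ := exists_log hfD hf0
  have hLd : ∀ w ∈ ball (0:ℂ) 1, deriv L w = R * (n -
      EE (fun k => k * a k) n (σ + R * w) / EE a n (σ + R * w)) := by
    intro w hw
    have e1 : HasDerivAt L (deriv L w) w :=
      (hL.differentiableAt (isOpen_ball.mem_nhds hw)).hasDerivAt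
    have e2 := e1.cexp
    have e3 : HasDerivAt (fun w => exp (L w)) (f w * (R * (n -
      EE (fun k => k * a k) n (σ + R * w) / EE a n (σ + R * w)))) w := by
      refine (hfd w hw).congr_of_eventuallyEq ?_
      filter_upwards [isOpen_ball.mem_nhds hw] with x hx
      exact hL' x hx
    have e4 := e2.unique e3
    rw [hL' w hw] at e4
    exact mul_left_cancel₀ (hf0 w hw) e4
  have h00 : (0:ℂ) ∈ ball (0:ℂ) 1 := mem_ball_self one_pos
  have hLdd : deriv (deriv L) 0 = - R ^ 2 * (EE (fun k => k * (k * a k)) n σ / EE a n σ -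
      (EE (fun k => k * a k) n σ / EE a n σ) ^ 2) := by
    have e0 : deriv L =ᶠ[nhds 0] fun w => R * (n -
      EE (fun k => k * a k) n (σ + R * w) / EE a n (σ + R * w)) := by
      filter_upwards [isOpen_ball.mem_nhds h00] with x hx
      exact hLd x hx
    rw [e0.deriv_eq]
    have hne := h1 0 h00
    have e2 : HasDerivAt (fun w : ℂ => EE a n ((σ : ℂ) + R * w))
        (EE (fun k => k * a k) n (σ + R * 0) * R) 0 := by
      have := (hasDerivAt_EE a n (σ + R * 0)).comp (0:ℂ) (haff 0)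
      exact this
    have e3 : HasDerivAt (fun w : ℂ => EE (fun k => k * a k) n ((σ : ℂ) + R * w))
        (EE (fun k => k * (k * a k)) n (σ + R * 0) * R) 0 := by
      have := (hasDerivAt_EE (fun k => k * a k) n (σ + R * 0)).comp (0:ℂ) (haff 0)
      exact this
    have e4 := ((e3.div e2 hne).const_sub (n:ℂ)).const_mul (R:ℂ)
    refine e4.deriv.trans ?_
    simp only [mul_zero, add_zero] at hne ⊢
    field_simp
  have key := h f L hL hL' hf1
  have hf00 : f 0 = a n * exp (n * σ) / EE a n σ := by simp [hf]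
  rw [hLd 0 h00, hLdd, hf00] at key
  simp only [mul_zero, add_zero] at key
  obtain ⟨k1, k2⟩ := key
  rw [norm_mul, Complex.norm_real, Real.norm_eq_abs, abs_of_pos hR] at k1
  rw [norm_mul, norm_neg, norm_pow, Complex.norm_real, Real.norm_eq_abs, abs_of_pos hR] at k2
  constructor
  · rw [div_mul_eq_mul_div, le_div_iff₀ hR, mul_comm]; exact k1
  · rw [div_mul_eq_mul_div, le_div_iff₀ (by positivity), mul_comm]; exact k2

end Pool.Agent.Helper80.Width
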