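import Mathlib

/-!
The order of an entire function.
-/

set_option autoImplicit false

namespace Pool.Agent.Helper80.Width

/-- Maximum modulus of `f` on the circle of radius `r` about the origin. -/
noncomputable def maxMod (f : ℂ → ℂ) (r : ℝ) : ℝ := sSup ((fun z => ‖f z‖) '' Metric.sphere (0:ℂ) r)

/-- The order of an entire function: the `limsup`, as `r` tends to infinity, of
`log⁺ (log⁺ (M r)) / log r`, where `log⁺ x = max 0 (log x)`. -/
noncomputable def order (f : ℂ → ℂ) : EReal :=
  Filter.limsup (fun r : ℝ =>
    ((Real.posLog (Real.posLog (maxMod f r)) / Real.log r : ℝ) : EReal)) Filter.atTop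

end Pool.Agent.Helper80.Width
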