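import Pool.Agent.Helper80.Width.Radius
import Pool.Agent.Helper80.Width.Order

/-!
From the index inequality to the order.
-/

set_option autoImplicit false

open Set Filter

namespace Pool.Agent.Helper80.Width

theorem factorial_le (k N : ℕ) (h : k ≤ N) : N.factorial ≤ k.factorial * N ^ (N - k) := by
  have h1 := Nat.factorial_mul_descFactorial (n := N) (k := N - k) (by omega)
  have h2 : N - (N - k) = k := by omega
  rw [h2] at h1
  rw [← h1]
  exact Nat.mul_le_mul_left _ (Nat.descFactorial_le_pow N (N - k))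

theorem coef_bound {ρ M : ℝ} {b : ℕ → ℝ} (hρ : 0 < ρ) (hb : ∀ k, 0 ≤ b k) (hM : 0 < M)
    (h : ∀ N : ℕ, 1 ≤ N → 0 < b N → ∃ s : ℝ, ∃ k < N,
      b N * Real.exp (N * s) = b k * Real.exp (k * s) ∧
      (N:ℝ) ≤ M * (1 + Real.log N) ^ 2 * (1 + Real.exp (ρ * s)))
    {ρ' : ℝ} (hρ' : ρ < ρ') :
    ∃ A : ℝ, 0 < A ∧ ∀ N : ℕ, b N * (N.factorial : ℝ) ^ (1 / ρ') ≤ A := by
  have hρ'0 : 0 < ρ' := hρ.trans hρ'
  set β : ℝ := 1 / ρ' with hβ
  have hβ0 : 0 < β := by positivity
  set θ : ℝ := β * ρ with hθ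
  have hθ0 : 0 < θ := by positivity
  have hθ1 : θ < 1 := by
    rw [hθ, hβ, one_div, inv_mul_lt_iff₀ hρ'0]; linarith
  set η : ℝ := (1 - θ) / 2 with hη
  have hη0 : 0 < η := by rw [hη]; linarith
  set c : ℝ := 2 * M * (1 + 2 / η) ^ 2 with hc
  have hc0 : 0 < c := by positivity
  obtain ⟨N1, hN1⟩ := exists_nat_gt (c ^ (1 / η))
  -- lower bound for exp s
  have hexp : ∀ N : ℕ, 1 ≤ N → N1 ≤ N → ∀ s : ℝ,
      (N:ℝ) ≤ M * (1 + Real.log N) ^ 2 * (1 + Real.exp (ρ * s)) → (N:ℝ) ^ β ≤ Real.exp s := by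
    intro N hN hNN1 s hs
    by_contra hcon
    push Not at hcon
    have hNr : (1:ℝ) ≤ N := by exact_mod_cast hN
    have hN0 : (0:ℝ) < N := by linarith
    have h1 : Real.exp (ρ * s) ≤ (N:ℝ) ^ θ := by
      have h2 := Real.rpow_le_rpow (Real.exp_pos s).le hcon.le hρ.le
      rw [← Real.rpow_mul hN0.le, ← Real.exp_mul] at h2
      rw [mul_comm ρ s]
      exact h2
    have h2 : 1 ≤ (N:ℝ) ^ θ := Real.one_le_rpow hNr hθ0.le
    have h3 := one_add_log_sq_le hη0 hNr
    have h4 : (N:ℝ) ≤ c * (N:ℝ) ^ η * (N:ℝ) ^ θ := by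
      calc (N:ℝ) ≤ M * (1 + Real.log N) ^ 2 * (1 + Real.exp (ρ * s)) := hs
        _ ≤ M * ((1 + 2 / η) ^ 2 * (N:ℝ) ^ η) * (2 * (N:ℝ) ^ θ) := by
            apply mul_le_mul
            · exact mul_le_mul_of_nonneg_left h3 hM.le
            · linarith
            · positivity
            · positivity
        _ = _ := by rw [hc]; ring
    have h5 : (N:ℝ) = (N:ℝ) ^ η * ((N:ℝ) ^ η * (N:ℝ) ^ θ) := by
      rw [← Real.rpow_add hN0, ← Real.rpow_add hN0]
      have : η + (η + θ) = 1 := by rw [hη]; ring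
      rw [this, Real.rpow_one]
    have h6 : (N:ℝ) ^ η ≤ c := by
      have h7 : (N:ℝ) ^ η * ((N:ℝ) ^ η * (N:ℝ) ^ θ) ≤ c * ((N:ℝ) ^ η * (N:ℝ) ^ θ) := by
        rw [← h5, ← mul_assoc]; exact h4
      exact le_of_mul_le_mul_right h7 (by positivity)
    have h7 : (N:ℝ) ≤ c ^ (1 / η) := by
      have h8 := Real.rpow_le_rpow (by positivity) h6 (show 0 ≤ 1 / η by positivity)
      rwa [← Real.rpow_mul hN0.le, mul_one_div_cancel hη0.ne', Real.rpow_one] at h8
    have h8 : (N1:ℝ) ≤ N := by exact_mod_cast hNN1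
    linarith
  set A : ℝ := 1 + ∑ k ∈ Finset.range (N1 + 1), b k * (k.factorial : ℝ) ^ β with hA
  have hterm : ∀ k, 0 ≤ b k * (k.factorial : ℝ) ^ β := fun k => mul_nonneg (hb k) (by positivity)
  have hA0 : 0 < A := by
    have := Finset.sum_nonneg fun k (_ : k ∈ Finset.range (N1 + 1)) => hterm k
    linarith
  refine ⟨A, hA0, ?_⟩
  intro N
  induction N using Nat.strong_induction_on with
  | _ N ih =>
    rcases Nat.lt_or_ge N (N1 + 1) with hN | hN
    · have := Finset.single_le_sum (f := fun k : ℕ => b k * (k.factorial : ℝ) ^ β)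
        (fun k _ => hterm k) (Finset.mem_range.2 hN)
      linarith
    · rcases (hb N).lt_or_eq with hbN | hbN
      · obtain ⟨s, k, hk, heq, hs⟩ := h N (by omega) hbN
        have hNr : (1:ℝ) ≤ N := by
          have : 1 ≤ N := by omega
          exact_mod_cast this
        have hN0 : (0:ℝ) < N := by linarith
        have he := hexp N (by omega) (by omega) s hs
        have h1 : b N * Real.exp s ^ (N - k) = b k := by
          have h2 : Real.exp s ^ (N - k) * Real.exp (k * s) = Real.exp (N * s) := by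
            rw [← Real.exp_nat_mul, ← Real.exp_add]
            congr 1
            rw [Nat.cast_sub hk.le]; ring
          have h3 : (b N * Real.exp s ^ (N - k)) * Real.exp (k * s) = b k * Real.exp (k * s) := by
            rw [mul_assoc, h2, heq]
          exact mul_right_cancel₀ (Real.exp_pos _).ne' h3
        have h2 : ((N.factorial : ℝ)) ^ β ≤ (k.factorial : ℝ) ^ β * ((N:ℝ) ^ β) ^ (N - k) := by
          have h3 : (N.factorial : ℝ) ≤ k.factorial * (N:ℝ) ^ (N - k) := by
            exact_mod_cast factorial_le k N hk.le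
          have h4 := Real.rpow_le_rpow (by positivity) h3 hβ0.le
          rw [Real.mul_rpow (by positivity) (by positivity)] at h4
          have h5 : ((N:ℝ) ^ (N - k)) ^ β = ((N:ℝ) ^ β) ^ (N - k) := by
            rw [← Real.rpow_natCast, ← Real.rpow_natCast, ← Real.rpow_mul hN0.le,
              ← Real.rpow_mul hN0.le, mul_comm]
          rwa [h5] at h4
        have h3 : ((N:ℝ) ^ β) ^ (N - k) ≤ Real.exp s ^ (N - k) :=
          pow_le_pow_left₀ (by positivity) he _
        calc b N * ((N.factorial : ℝ)) ^ β ≤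
            b N * ((k.factorial : ℝ) ^ β * ((N:ℝ) ^ β) ^ (N - k)) :=
              mul_le_mul_of_nonneg_left h2 hbN.le
          _ ≤ b N * ((k.factorial : ℝ) ^ β * Real.exp s ^ (N - k)) := by gcongr
          _ = (b N * Real.exp s ^ (N - k)) * (k.factorial : ℝ) ^ β := by ring
          _ = b k * (k.factorial : ℝ) ^ β := by rw [h1]
          _ ≤ A := ih k hk
      · rw [← hbN, zero_mul]; exact hA0.le

/-- growth of the series -/
theorem growth {b : ℕ → ℝ} (hb : ∀ k, 0 ≤ b k) {ρ' A : ℝ} (hρ' : 0 < ρ') (hA : 0 < A)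
    (h : ∀ N : ℕ, b N * (N.factorial : ℝ) ^ (1 / ρ') ≤ A) {r : ℝ} (hr : 0 ≤ r) :
    Summable (fun N => b N * r ^ N) ∧
      ∑' N, b N * r ^ N ≤ 2 * A * Real.exp (1 / ρ' * (2 * r) ^ ρ') := by
  set β : ℝ := 1 / ρ' with hβ
  have hβ0 : 0 < β := by positivity
  set y : ℝ := (2 * r) ^ ρ' with hy
  have hy0 : 0 ≤ y := by positivity
  have key : ∀ N : ℕ, b N * r ^ N ≤ A * Real.exp (β * y) * (1 / 2) ^ N := by
    intro N
    have h1 : (2 * r) ^ N / (N.factorial : ℝ) ^ β ≤ Real.exp (β * y) := by
      have h2 : y ^ N / (N.factorial : ℝ) ≤ Real.exp y := Real.pow_div_factorial_le_exp y hy0 N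
      have h3 := Real.rpow_le_rpow (by positivity) h2 hβ0.le
      rw [Real.div_rpow (by positivity) (by positivity), ← Real.exp_mul] at h3
      have h4 : (y ^ N) ^ β = (2 * r) ^ N := by
        rw [hy, ← Real.rpow_natCast, ← Real.rpow_mul (by positivity),
          ← Real.rpow_mul (by positivity)]
        have : ρ' * (N * β) = N := by rw [hβ]; field_simp
        rw [this, Real.rpow_natCast]
      rw [h4, mul_comm y β] at h3
      exact h3
    have h5 : (0:ℝ) < (N.factorial : ℝ) ^ β := by positivity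
    calc b N * r ^ N = (b N * (N.factorial : ℝ) ^ β) * ((2 * r) ^ N / (N.factorial : ℝ) ^ β) *
          (1 / 2) ^ N := by
          rw [mul_pow, div_pow, one_pow]; field_simp
      _ ≤ A * Real.exp (β * y) * (1 / 2) ^ N := by
          apply mul_le_mul_of_nonneg_right _ (by positivity)
          exact mul_le_mul (h N) h1 (by positivity) hA.le
  have hs : Summable fun N : ℕ => A * Real.exp (β * y) * (1 / 2 : ℝ) ^ N :=
    summable_geometric_two.mul_left _
  have hs' : Summable (fun N => b N * r ^ N) :=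
    Summable.of_nonneg_of_le (fun N => mul_nonneg (hb N) (by positivity)) key hs
  refine ⟨hs', ?_⟩
  refine (hs'.tsum_le_tsum key hs).trans ?_
  rw [tsum_mul_left, tsum_geometric_two]
  linarith

theorem maxMod_nonneg (f : ℂ → ℂ) (r : ℝ) : 0 ≤ maxMod f r := by
  apply Real.sSup_nonneg
  rintro _ ⟨z, _, rfl⟩
  exact norm_nonneg _

theorem order_le {f : ℂ → ℂ} {ρ : ℝ} (hρ : 0 < ρ)
    (h : ∀ ρ' : ℝ, ρ < ρ' → ∃ A c : ℝ, 0 < A ∧ 0 ≤ c ∧ ∀ z : ℂ,
      ‖f z‖ ≤ A * (1 + ‖z‖) * Real.exp (c * ‖z‖ ^ ρ')) : order f ≤ ρ := by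
  have key : ∀ x : ℝ, ρ < x → order f ≤ x := by
    intro x hx
    obtain ⟨A, c, hA, hc, hf⟩ := h ((ρ + x) / 2) (by linarith)
    set ρ' : ℝ := (ρ + x) / 2 with hρ'
    have hρ'0 : 0 < ρ' := by rw [hρ']; linarith
    have hx0 : 0 < x := by linarith
    have hδ : 0 < x - ρ' := by rw [hρ']; linarith
    unfold order
    apply limsup_le_of_le
    · exact isCobounded_le_of_bot
    · have h1 : ∀ᶠ r : ℝ in atTop, c + 1 / ρ' + |Real.log (2 * A)| ≤ r ^ (x - ρ') :=
        (tendsto_rpow_atTop hδ).eventually_ge_atTop _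
      filter_upwards [h1, eventually_gt_atTop 1] with r hr1 hr
      have hr0 : 0 < r := by linarith
      have hbd : maxMod f r ≤ Real.exp (r ^ x) := by
        unfold maxMod
        apply csSup_le
        · apply Set.Nonempty.image
          exact ⟨(r : ℂ), by rw [mem_sphere_zero_iff_norm]; simp [abs_of_pos hr0]⟩
        · rintro _ ⟨z, hz, rfl⟩
          rw [mem_sphere_zero_iff_norm] at hz
          refine (hf z).trans ?_
          rw [hz]
          have h2 : A * (1 + r) ≤ 2 * A * r := by nlinarith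
          have h3 : 2 * A * r = Real.exp (Real.log (2 * A) + Real.log r) := by
            rw [Real.exp_add, Real.exp_log (by positivity), Real.exp_log hr0]
          calc A * (1 + r) * Real.exp (c * r ^ ρ') ≤ 2 * A * r * Real.exp (c * r ^ ρ') :=
                mul_le_mul_of_nonneg_right h2 (Real.exp_pos _).le
            _ = Real.exp (Real.log (2 * A) + Real.log r + c * r ^ ρ') := by
                rw [h3, ← Real.exp_add]
            _ ≤ Real.exp (r ^ x) := by
                apply Real.exp_le_exp.2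
                have h4 : Real.log r ≤ r ^ ρ' / ρ' := Real.log_le_rpow_div hr0.le hρ'0
                have h5 : 1 ≤ r ^ ρ' := Real.one_le_rpow hr.le hρ'0.le
                have h6 : r ^ x = r ^ ρ' * r ^ (x - ρ') := by
                  rw [← Real.rpow_add hr0]; congr 1; ring
                have h7 : Real.log (2 * A) ≤ |Real.log (2 * A)| * r ^ ρ' := by
                  have := le_abs_self (Real.log (2 * A))
                  have := abs_nonneg (Real.log (2 * A))
                  nlinarith
                rw [h6]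
                calc Real.log (2 * A) + Real.log r + c * r ^ ρ' ≤
                    |Real.log (2 * A)| * r ^ ρ' + r ^ ρ' / ρ' + c * r ^ ρ' := by linarith
                  _ = r ^ ρ' * (c + 1 / ρ' + |Real.log (2 * A)|) := by ring
                  _ ≤ _ := mul_le_mul_of_nonneg_left hr1 (by positivity)
      have h2 : Real.posLog (maxMod f r) ≤ r ^ x := by
        have := Real.posLog_le_posLog (maxMod_nonneg f r) hbd
        refine this.trans ?_
        rw [Real.posLog_apply, Real.log_exp]
        exact max_le (by positivity) le_rfl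
      have h3 : Real.posLog (Real.posLog (maxMod f r)) ≤ x * Real.log r := by
        have := Real.posLog_le_posLog Real.posLog_nonneg h2
        refine this.trans ?_
        rw [Real.posLog_apply, Real.log_rpow hr0]
        have := Real.log_pos hr
        exact max_le (by positivity) le_rfl
      have h4 : Real.posLog (Real.posLog (maxMod f r)) / Real.log r ≤ x := by
        rw [div_le_iff₀ (Real.log_pos hr)]; exact h3
      exact_mod_cast h4
  by_contra hcon
  push Not at hcon
  obtain ⟨x, hx1, hx2⟩ := EReal.lt_iff_exists_real_btwn.1 hcon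
  have := key x (by exact_mod_cast hx1)
  exact absurd hx2 (not_lt.2 this)

end Pool.Agent.Helper80.Width
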