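import Pool.Agent.Helper80.Width.Schottky

/-!
Quantitative Schottky theorem: for functions omitting `0` and `-1`.
-/

set_option autoImplicit false

open Metric Set Complex

namespace Pool.Agent.Helper80.Width

theorem norm_sin_le (w : ℂ) : ‖sin w‖ ≤ Real.exp ‖w‖ := by
  rw [Complex.sin, norm_div, norm_mul, norm_I, mul_one]
  have h1 : ‖exp (w * I)‖ ≤ Real.exp ‖w‖ := by
    refine (norm_exp_le_exp_norm _).trans ?_
    rw [norm_mul, norm_I, mul_one]
  have h2 : ‖exp (-w * I)‖ ≤ Real.exp ‖w‖ := by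
    refine (norm_exp_le_exp_norm _).trans ?_
    rw [norm_mul, norm_I, mul_one, norm_neg]
  have h3 := norm_sub_le (exp (-w * I)) (exp (w * I))
  rw [Complex.norm_ofNat, div_le_iff₀ (by norm_num)]
  linarith

theorem norm_im_le (w : ℂ) : |w.im| ≤ Real.log (1 + 2 * ‖cos w‖) := by
  have h1 : ‖exp (w * I)‖ = Real.exp (-w.im) := by
    rw [norm_exp]; simp
  have h2 : ‖exp (-w * I)‖ = Real.exp (w.im) := by
    rw [norm_exp]; simp
  have h3 : exp (w * I) + exp (-w * I) = 2 * cos w := by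
    rw [Complex.cos]; ring
  have h4 : ‖exp (w * I) + exp (-w * I)‖ = 2 * ‖cos w‖ := by
    rw [h3, norm_mul]; simp
  rw [Real.le_log_iff_exp_le (by positivity)]
  rcases le_total 0 w.im with h | h
  · rw [abs_of_nonneg h]
    have h5 : ‖exp (-w * I)‖ ≤ ‖exp (w * I) + exp (-w * I)‖ + ‖exp (w * I)‖ := by
      have := norm_sub_le (exp (w * I) + exp (-w * I)) (exp (w * I))
      simpa using this
    rw [h1, h2, h4] at h5
    have h6 : Real.exp (-w.im) ≤ 1 := Real.exp_le_one_iff.2 (by linarith)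
    linarith
  · rw [abs_of_nonpos h]
    have h5 : ‖exp (w * I)‖ ≤ ‖exp (w * I) + exp (-w * I)‖ + ‖exp (-w * I)‖ := by
      have := norm_sub_le (exp (w * I) + exp (-w * I)) (exp (-w * I))
      simpa using this
    rw [h1, h2, h4] at h5
    have h6 : Real.exp (w.im) ≤ 1 := Real.exp_le_one_iff.2 (by linarith)
    linarith

/-- quantitative Schottky theorem -/
theorem schottky_log : ∃ C : ℝ, 1 ≤ C ∧ ∀ f : ℂ → ℂ, DifferentiableOn ℂ f (ball 0 1) →
    (∀ z ∈ ball (0:ℂ) 1, f z ≠ 0) → (∀ z ∈ ball (0:ℂ) 1, f z ≠ -1) →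
    ∀ z ∈ closedBall (0:ℂ) (1/2), Real.log ‖f z‖ ≤ C * (1 + Real.log (1 + ‖f 0‖)) := by
  set E : ℝ := Real.exp (384 * Real.pi) with hE
  have hE1 : 1 ≤ E := Real.one_le_exp (by positivity)
  have hpi3 : 3 < Real.pi := Real.pi_gt_three
  refine ⟨7 * Real.pi * E, by nlinarith, ?_⟩
  intro f hf h0 h1 z hz
  have hz2 : ‖z‖ ≤ 1 / 2 := by simpa using hz
  have hz1 : z ∈ ball (0:ℂ) 1 := by rw [mem_ball_zero_iff]; linarith
  have h00 : (0:ℂ) ∈ ball (0:ℂ) 1 := mem_ball_self one_pos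
  have hhd : DifferentiableOn ℂ (fun z => 1 + 2 * f z) (ball 0 1) :=
    (differentiableOn_const _).add ((differentiableOn_const _).mul hf)
  obtain ⟨F0, hF0, hF0'⟩ := exists_cos hhd
    (fun z hz h => h0 z hz (by linear_combination h / 2))
    (fun z hz h => h1 z hz (by linear_combination h / 2))
  set k : ℤ := round ((F0 0).re / 2) with hk
  set F : ℂ → ℂ := fun z => F0 z - 2 * k with hFdef
  have hF : DifferentiableOn ℂ F (ball 0 1) := hF0.sub (differentiableOn_const _)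
  have hF' : ∀ z ∈ ball (0:ℂ) 1, cos (Real.pi * F z) = 1 + 2 * f z := by
    intro z hz
    rw [← hF0' z hz]
    have : (Real.pi : ℂ) * F z = Real.pi * F0 z - k * (2 * Real.pi) := by
      simp only [hFdef]; ring
    rw [this, Complex.cos_sub_int_mul_two_pi]
  have hF0re : |(F 0).re| ≤ 1 := by
    have h2 : (F 0).re = 2 * ((F0 0).re / 2 - k) := by
      simp [hFdef]; ring
    rw [h2, abs_mul, abs_two]
    have := abs_sub_round ((F0 0).re / 2)
    rw [← hk] at this
    linarith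
  have hFint : ∀ z ∈ ball (0:ℂ) 1, ∀ n : ℤ, F z ≠ n := by
    intro z hz n h
    have h3 := hF' z hz
    obtain ⟨ε, hε, he⟩ := cosint n
    rw [h, mul_comm, he] at h3
    rcases hε with rfl | rfl
    · exact h0 z hz (by push_cast at h3; linear_combination - h3 / 2)
    · exact h1 z hz (by push_cast at h3; linear_combination - h3 / 2)
  obtain ⟨g, hg, hg'⟩ := exists_cos hF (fun z hz => by simpa using hFint z hz 1)
    (fun z hz => by simpa using hFint z hz (-1))
  have hom : ∀ v : ℂ, ∃ w, dist w v < 2 ∧ ∀ z ∈ ball (0:ℂ) 1, g z ≠ w := by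
    intro v
    obtain ⟨w, hw, n, hn⟩ := net v
    refine ⟨w, hw, fun z hz h => ?_⟩
    apply hFint z hz n
    rw [← hg' z hz, h, hn]
  have hb : ‖g z - g 0‖ ≤ 384 := by
    refine (bloch hg two_pos hom hz1).trans ?_
    rw [div_le_iff₀ (by linarith)]
    linarith
  -- bound for F z
  have hδ : ‖(Real.pi : ℂ) * (g z - g 0)‖ ≤ 384 * Real.pi := by
    rw [norm_mul, Complex.norm_real, Real.norm_eq_abs, abs_of_pos Real.pi_pos]
    nlinarith
  have hcosδ : ‖cos ((Real.pi : ℂ) * (g z - g 0))‖ ≤ E :=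
    (norm_cos_le _).trans (Real.exp_le_exp.2 hδ)
  have hsinδ : ‖sin ((Real.pi : ℂ) * (g z - g 0))‖ ≤ E :=
    (norm_sin_le _).trans (Real.exp_le_exp.2 hδ)
  have hsin0 : ‖sin ((Real.pi : ℂ) * g 0)‖ ≤ 1 + ‖F 0‖ := by
    have h2 : sin ((Real.pi : ℂ) * g 0) ^ 2 = 1 - F 0 ^ 2 := by
      rw [← hg' 0 h00]
      have := Complex.sin_sq_add_cos_sq ((Real.pi : ℂ) * g 0)
      linear_combination this
    have h3 : ‖sin ((Real.pi : ℂ) * g 0)‖ ^ 2 ≤ (1 + ‖F 0‖) ^ 2 := by
      rw [← norm_pow, h2]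
      refine (norm_sub_le _ _).trans ?_
      rw [norm_one, norm_pow]
      nlinarith [norm_nonneg (F 0)]
    exact (sq_le_sq₀ (norm_nonneg _) (by positivity)).1 h3
  have hFz : ‖F z‖ ≤ E * (1 + 2 * ‖F 0‖) := by
    have e1 : F z = cos ((Real.pi : ℂ) * g 0) * cos ((Real.pi : ℂ) * (g z - g 0)) -
        sin ((Real.pi : ℂ) * g 0) * sin ((Real.pi : ℂ) * (g z - g 0)) := by
      rw [← Complex.cos_add, ← hg' z hz1]
      congr 1; ring
    rw [hg' 0 h00] at e1
    rw [e1]
    refine (norm_sub_le _ _).trans ?_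
    rw [norm_mul, norm_mul]
    have h2 : ‖F 0‖ * ‖cos ((Real.pi : ℂ) * (g z - g 0))‖ ≤ ‖F 0‖ * E :=
      mul_le_mul_of_nonneg_left hcosδ (norm_nonneg _)
    have h3 : ‖sin ((Real.pi : ℂ) * g 0)‖ * ‖sin ((Real.pi : ℂ) * (g z - g 0))‖ ≤
        (1 + ‖F 0‖) * E := mul_le_mul hsin0 hsinδ (norm_nonneg _) (by positivity)
    linarith
  -- bound for F 0
  have hf0 : 0 ≤ ‖f 0‖ := norm_nonneg _
  have hlog0 : 0 ≤ Real.log (1 + ‖f 0‖) := Real.log_nonneg (by linarith)
  have hF0b : ‖F 0‖ ≤ 3 + Real.log (1 + ‖f 0‖) := by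
    have h2 : |(F 0).im| ≤ Real.log (1 + 2 * ‖1 + 2 * f 0‖) := by
      have h3 := norm_im_le ((Real.pi : ℂ) * F 0)
      rw [hF' 0 h00] at h3
      have h4 : ((Real.pi : ℂ) * F 0).im = Real.pi * (F 0).im := by
        rw [Complex.mul_im]; simp
      rw [h4, abs_mul, abs_of_pos Real.pi_pos] at h3
      nlinarith [abs_nonneg (F 0).im]
    have h3 : Real.log (1 + 2 * ‖1 + 2 * f 0‖) ≤ 2 + Real.log (1 + ‖f 0‖) := by
      have h4 : 1 + 2 * ‖1 + 2 * f 0‖ ≤ Real.exp 2 * (1 + ‖f 0‖) := by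
        have h5 : ‖1 + 2 * f 0‖ ≤ 1 + 2 * ‖f 0‖ := by
          refine (norm_add_le _ _).trans ?_
          rw [norm_mul]; simp
        have h6 : (4:ℝ) ≤ Real.exp 2 := by
          have h7 := Real.add_one_le_exp (1:ℝ)
          have h8 : Real.exp 2 = Real.exp 1 * Real.exp 1 := by
            rw [← Real.exp_add]; norm_num
          rw [h8]; nlinarith
        nlinarith
      calc Real.log (1 + 2 * ‖1 + 2 * f 0‖) ≤ Real.log (Real.exp 2 * (1 + ‖f 0‖)) :=
            Real.log_le_log (by positivity) h4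
        _ = _ := by rw [Real.log_mul (Real.exp_ne_zero _) (by linarith), Real.log_exp]
    have h4 := Complex.norm_le_abs_re_add_abs_im (F 0)
    linarith
  have hfz0 : 0 < ‖f z‖ := norm_pos_iff.2 (h0 z hz1)
  have hfz : ‖f z‖ ≤ Real.exp (Real.pi * ‖F z‖) := by
    have h2 : ‖1 + 2 * f z‖ ≤ Real.exp (Real.pi * ‖F z‖) := by
      rw [← hF' z hz1]
      refine (norm_cos_le _).trans ?_
      rw [norm_mul, Complex.norm_real, Real.norm_eq_abs, abs_of_pos Real.pi_pos]
    have h3 : ‖2 * f z‖ ≤ ‖1 + 2 * f z‖ + ‖(1:ℂ)‖ := by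
      have := norm_sub_le (1 + 2 * f z) 1
      simpa using this
    rw [norm_mul, norm_one, Complex.norm_ofNat] at h3
    have h4 : 1 ≤ Real.exp (Real.pi * ‖F z‖) := Real.one_le_exp (by positivity)
    linarith
  have hlog : Real.log ‖f z‖ ≤ Real.pi * ‖F z‖ := by
    rw [← Real.log_exp (Real.pi * ‖F z‖)]
    exact Real.log_le_log hfz0 hfz
  refine hlog.trans ?_
  have h5 : ‖F z‖ ≤ E * (7 * (1 + Real.log (1 + ‖f 0‖))) := by
    refine hFz.trans (mul_le_mul_of_nonneg_left ?_ (by positivity))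
    linarith
  calc Real.pi * ‖F z‖ ≤ Real.pi * (E * (7 * (1 + Real.log (1 + ‖f 0‖)))) :=
        mul_le_mul_of_nonneg_left h5 Real.pi_pos.le
    _ = _ := by ring

/-- two-sided version -/
theorem schottky_abs : ∃ C : ℝ, 1 ≤ C ∧ ∀ f : ℂ → ℂ, DifferentiableOn ℂ f (ball 0 1) →
    (∀ z ∈ ball (0:ℂ) 1, f z ≠ 0) → (∀ z ∈ ball (0:ℂ) 1, f z ≠ -1) →
    ∀ z ∈ closedBall (0:ℂ) (1/2), |Real.log ‖f z‖| ≤ C * (1 + |Real.log ‖f 0‖|) := by
  obtain ⟨C, hC, h⟩ := schottky_log
  have key : ∀ x : ℝ, 0 < x → Real.log (1 + x) ≤ 1 + |Real.log x| := by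
    intro x hx
    have h2 : 1 + x ≤ Real.exp 1 * Real.exp |Real.log x| := by
      have h3 : x ≤ Real.exp |Real.log x| := by
        calc x = Real.exp (Real.log x) := (Real.exp_log hx).symm
          _ ≤ _ := Real.exp_le_exp.2 (le_abs_self _)
      have h4 : 1 ≤ Real.exp |Real.log x| := Real.one_le_exp (abs_nonneg _)
      have h5 := Real.add_one_le_exp (1:ℝ)
      nlinarith
    rw [← Real.exp_add] at h2
    calc Real.log (1 + x) ≤ Real.log (Real.exp (1 + |Real.log x|)) :=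
          Real.log_le_log (by linarith) h2
      _ = _ := Real.log_exp _
  refine ⟨2 * C, by linarith, ?_⟩
  intro f hf h0 h1 z hz
  have hz2 : ‖z‖ ≤ 1 / 2 := by simpa using hz
  have hz1 : z ∈ ball (0:ℂ) 1 := by rw [mem_ball_zero_iff]; linarith
  have h00 : (0:ℂ) ∈ ball (0:ℂ) 1 := mem_ball_self one_pos
  have hf0 : 0 < ‖f 0‖ := norm_pos_iff.2 (h0 0 h00)
  have e1 := h f hf h0 h1 z hz
  have e2 := h (fun z => (f z)⁻¹) (hf.inv h0) (fun z hz => inv_ne_zero (h0 z hz))
    (fun z hz h => h1 z hz (by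
      have := congrArg (fun x => x⁻¹) h
      simpa [inv_neg] using this)) z hz
  have k1 := key _ hf0
  have k2 := key _ (inv_pos.2 hf0)
  simp only [norm_inv, Real.log_inv, abs_neg] at e2 k2
  rw [abs_le]
  have ha := abs_nonneg (Real.log ‖f 0‖)
  constructor
  · nlinarith
  · nlinarith

/-- estimates for the derivatives of the logarithm -/
theorem log_deriv_bound : ∃ C : ℝ, 1 ≤ C ∧ ∀ f L : ℂ → ℂ, DifferentiableOn ℂ L (ball 0 1) →
    (∀ z ∈ ball (0:ℂ) 1, exp (L z) = f z) → (∀ z ∈ ball (0:ℂ) 1, f z ≠ -1) →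
    ‖deriv L 0‖ ≤ C * (1 + |Real.log ‖f 0‖|) ∧
    ‖deriv (deriv L) 0‖ ≤ C * (1 + |Real.log ‖f 0‖|) := by
  obtain ⟨C, hC, h⟩ := schottky_abs
  set e : ℝ := Real.exp 1 with he
  have he1 : 1 ≤ e := Real.one_le_exp (by norm_num)
  refine ⟨16 * e ^ 2 * C, by nlinarith [mul_pos (by linarith : 0 < e) (by linarith : 0 < e)], ?_⟩
  intro f L hL hLf h1
  have hf : DifferentiableOn ℂ f (ball 0 1) := by
    refine hL.cexp.congr ?_
    intro z hz
    exact (hLf z hz).symm
  have h0 : ∀ z ∈ ball (0:ℂ) 1, f z ≠ 0 := fun z hz => by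
    rw [← hLf z hz]; exact exp_ne_zero _
  set M : ℝ := C * (1 + |Real.log ‖f 0‖|) with hM
  have hM0 : 0 < M := by
    have := abs_nonneg (Real.log ‖f 0‖)
    positivity
  have hre : ∀ z ∈ closedBall (0:ℂ) (1/2), |(L z).re| ≤ M := by
    intro z hz
    have h2 := h f hf h0 h1 z hz
    have hz2 : ‖z‖ ≤ 1 / 2 := by simpa using hz
    have hz1 : z ∈ ball (0:ℂ) 1 := by rw [mem_ball_zero_iff]; linarith
    rwa [← hLf z hz1, norm_exp, Real.log_exp] at h2
  have hd : ∀ z ∈ closedBall (0:ℂ) (1/4), ‖deriv L z‖ ≤ 4 * e ^ 2 * M := by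
    intro z hz
    have hz4 : ‖z‖ ≤ 1 / 4 := by simpa using hz
    have hz1 : z ∈ ball (0:ℂ) 1 := by rw [mem_ball_zero_iff]; linarith
    have hsub : closedBall z (1/4) ⊆ closedBall (0:ℂ) (1/2) := by
      intro x hx
      rw [mem_closedBall, dist_eq_norm] at hx
      rw [mem_closedBall_zero_iff]
      have : ‖x‖ ≤ ‖x - z‖ + ‖z‖ := by simpa using norm_add_le (x - z) z
      linarith
    have hsub1 : closedBall z (1/4) ⊆ ball (0:ℂ) 1 :=
      hsub.trans (closedBall_subset_ball (by norm_num))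
    have hWd : DifferentiableOn ℂ (fun z => exp (L z / M)) (ball 0 1) := (hL.div_const _).cexp
    have hW : ‖deriv (fun z => exp (L z / M)) z‖ ≤ e / (1/4) := by
      refine Complex.norm_deriv_le_of_forall_mem_sphere_norm_le (by norm_num) ?_ ?_
      · refine ⟨hWd.mono (ball_subset_closedBall.trans hsub1), ?_⟩
        rw [closure_ball z (by norm_num)]
        exact hWd.continuousOn.mono hsub1
      · intro x hx
        have hx' := hre x (hsub (sphere_subset_closedBall hx))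
        rw [norm_exp, he]
        apply Real.exp_le_exp.2
        have : (L x / (M:ℂ)).re = (L x).re / M := by
          rw [Complex.div_ofReal_re]
        rw [this, div_le_one hM0]
        exact (le_abs_self _).trans hx'
    have hLz : HasDerivAt L (deriv L z) z :=
      (hL.differentiableAt (isOpen_ball.mem_nhds hz1)).hasDerivAt
    have hWz : deriv (fun z => exp (L z / M)) z = exp (L z / M) * (deriv L z / M) :=
      (hLz.div_const (M:ℂ)).cexp.deriv
    rw [hWz, norm_mul, norm_div, Complex.norm_real, Real.norm_eq_abs, abs_of_pos hM0, norm_exp]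
      at hW
    have h2 : Real.exp (-1) ≤ Real.exp ((L z / (M:ℂ)).re) := by
      apply Real.exp_le_exp.2
      rw [Complex.div_ofReal_re, le_div_iff₀ hM0]
      have := hre z (hsub (mem_closedBall_self (by norm_num)))
      have := neg_abs_le (L z).re
      linarith
    have h3 : Real.exp (-1) * (‖deriv L z‖ / M) ≤ e / (1/4) :=
      (mul_le_mul_of_nonneg_right h2 (by positivity)).trans hW
    have h4 : Real.exp (-1) = e⁻¹ := by rw [Real.exp_neg]
    rw [h4, ← mul_div_assoc, div_le_iff₀ hM0, inv_mul_le_iff₀ (by positivity)] at h3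
    calc ‖deriv L z‖ ≤ e * (e / (1/4) * M) := h3
      _ = _ := by ring
  constructor
  · refine (hd 0 (mem_closedBall_self (by norm_num))).trans ?_
    have : 0 ≤ e ^ 2 * M := by positivity
    rw [mul_assoc, hM] at *
    nlinarith
  · have hLd : DifferentiableOn ℂ (deriv L) (ball 0 1) := hL.deriv isOpen_ball
    have hsub1 : closedBall (0:ℂ) (1/4) ⊆ ball (0:ℂ) 1 := closedBall_subset_ball (by norm_num)
    have := Complex.norm_deriv_le_of_forall_mem_sphere_norm_le (c := (0:ℂ)) (R := 1/4)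
      (f := deriv L) (by norm_num)
      ⟨hLd.mono (ball_subset_closedBall.trans hsub1), by
        rw [closure_ball (0:ℂ) (by norm_num)]
        exact hLd.continuousOn.mono hsub1⟩
      (fun x hx => hd x (sphere_subset_closedBall hx))
    calc ‖deriv (deriv L) 0‖ ≤ 4 * e ^ 2 * M / (1/4) := this
      _ = _ := by rw [hM]; ring

end Pool.Agent.Helper80.Width
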