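import Pool.Agent.Helper80.Width.Final

/-!
The width conjecture for real coefficients and for coefficients in a sector.
-/

set_option autoImplicit false

open Set Filter

namespace Pool.Agent.Helper80.Width

/-- the core result: sector coefficients, `a 0 ≠ 0` -/
theorem core {ρ K : ℝ} (hρ : 0 < ρ) (hK : 0 < K) {a : ℕ → ℂ} (hZ : ZF ρ K a) (ha0 : a 0 ≠ 0)
    {c : ℝ} (hc : 0 < c) (hsec : ∀ k, c * ‖a k‖ ≤ (a k).re) {ρ' : ℝ} (hρ' : ρ < ρ') :
    ∃ A : ℝ, 0 < A ∧ ∀ N : ℕ, ‖a N‖ * (N.factorial : ℝ) ^ (1 / ρ') ≤ A := by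
  obtain ⟨D, hD, h⟩ := basic_two hρ hK hZ ha0 hc hsec
  obtain ⟨C, hC1, hC⟩ := BB_sq_le (ρ := ρ) hK
  have hb : ∀ k, 0 ≤ ‖a k‖ := fun k => norm_nonneg _
  have hb0 : 0 < ‖a 0‖ := norm_pos_iff.2 ha0
  have hG : HG D ρ K (fun k => ‖a k‖) := by
    intro n σ hn han
    exact h n σ hn (norm_pos_iff.1 han)
  obtain ⟨M, hM, hind⟩ := index_ineq hρ hK hb hb0 hD hG hC1 hC
  exact coef_bound hρ hb hM hind hρ'

/-- the zero-free condition is invariant under multiplication by a constant -/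
theorem ZF.smul {ρ K : ℝ} {a : ℕ → ℂ} (hZ : ZF ρ K a) {ω : ℂ} (hω : ω ≠ 0) :
    ZF ρ K (fun k => ω * a k) := by
  intro n hn z hz h
  apply hZ n hn z hz
  have : ∑ k ∈ Finset.range (n + 1), ω * a k * z ^ k =
      ω * ∑ k ∈ Finset.range (n + 1), a k * z ^ k := by
    rw [Finset.mul_sum]
    exact Finset.sum_congr rfl fun k _ => by ring
  rw [this] at h
  exact (mul_eq_zero.1 h).resolve_left hω

theorem core_sector {ρ K : ℝ} (hρ : 0 < ρ) (hK : 0 < K) {a : ℕ → ℂ} (hZ : ZF ρ K a)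
    (ha0 : a 0 ≠ 0) {ω : ℂ} {c : ℝ} (hc : 0 < c) (hsec : ∀ k, c * ‖a k‖ ≤ (ω * a k).re)
    {ρ' : ℝ} (hρ' : ρ < ρ') :
    ∃ A : ℝ, 0 < A ∧ ∀ N : ℕ, ‖a N‖ * (N.factorial : ℝ) ^ (1 / ρ') ≤ A := by
  have hω : ω ≠ 0 := by
    rintro rfl
    have h1 := hsec 0
    have h2 : 0 < ‖a 0‖ := norm_pos_iff.2 ha0
    simp only [zero_mul, Complex.zero_re] at h1
    nlinarith
  have hω0 : 0 < ‖ω‖ := norm_pos_iff.2 hω
  obtain ⟨A, hA, h⟩ := core hρ hK (hZ.smul hω) (mul_ne_zero hω ha0) (c := c / ‖ω‖)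
    (by positivity) (by
      intro k
      refine le_trans (le_of_eq ?_) (hsec k)
      rw [norm_mul]; field_simp) hρ'
  refine ⟨A / ‖ω‖, by positivity, fun N => ?_⟩
  rw [le_div_iff₀ hω0]
  have := h N
  rw [norm_mul] at this
  linarith

/-- signs of real coefficients -/
theorem signs {ρ K : ℝ} (hK : 0 < K) {a : ℕ → ℂ} (hZ : ZF ρ K a) (hre : ∀ k, (a k).im = 0)
    (h0 : 0 < (a 0).re) : ∀ k, 0 ≤ (a k).re := by
  intro k
  induction k using Nat.strong_induction_on with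
  | _ k ih =>
    by_contra hcon
    push Not at hcon
    have hk : 1 ≤ k := by
      rcases Nat.eq_zero_or_pos k with h | h
      · subst h; linarith
      · exact h
    set x : ℕ → ℝ := fun k => (a k).re with hx
    have hax : ∀ k, a k = (x k : ℂ) := fun k => Complex.ext (by simp [hx]) (by simp [hre k])
    set P : ℝ → ℝ := fun t => ∑ j ∈ Finset.range (k + 1), x j * t ^ j with hP
    have hPc : Continuous P := by
      rw [hP]
      fun_prop
    have hP0 : 0 < P 0 := by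
      simp only [hP]
      rw [Finset.sum_range_succ']
      simpa using h0
    -- a point where P is negative
    set S : ℝ := ∑ j ∈ Finset.range k, x j with hS
    have hS0 : 0 < S := by
      rw [hS]
      refine Finset.sum_pos' (fun j hj => ih j (Finset.mem_range.1 hj)) ⟨0, Finset.mem_range.2 hk, h0⟩
    set t : ℝ := 1 + S / (- x k) with ht
    have hxk : 0 < - x k := by
      have : x k < 0 := hcon
      linarith
    have ht1 : 1 ≤ t := by
      have : 0 < S / (- x k) := by positivity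
      linarith
    have hPt : P t < 0 := by
      simp only [hP]
      rw [Finset.sum_range_succ]
      have h1 : ∑ j ∈ Finset.range k, x j * t ^ j ≤ S * t ^ (k - 1) := by
        rw [hS, Finset.sum_mul]
        refine Finset.sum_le_sum fun j hj => ?_
        apply mul_le_mul_of_nonneg_left _ (ih j (Finset.mem_range.1 hj))
        apply pow_le_pow_right₀ ht1
        have := Finset.mem_range.1 hj
        omega
      have h2 : t ^ k = t ^ (k - 1) * t := by
        rw [← pow_succ]; congr 1; omega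
      have h3 : S + x k * t < 0 := by
        have hne : x k ≠ 0 := by
          intro h; rw [h] at hxk; simp at hxk
        have h4 : x k * t = x k - S := by
          rw [ht]; field_simp; ring
        rw [h4]
        linarith
      have h5 : 0 < t ^ (k - 1) := by positivity
      calc ∑ j ∈ Finset.range k, x j * t ^ j + x k * t ^ k ≤
          S * t ^ (k - 1) + x k * (t ^ (k - 1) * t) := by rw [h2]; linarith
        _ = t ^ (k - 1) * (S + x k * t) := by ring
        _ < 0 := mul_neg_of_pos_of_neg h5 h3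
    obtain ⟨u, hu, hu'⟩ := intermediate_value_Icc' (show (0:ℝ) ≤ t by linarith) hPc.continuousOn
      (show (0:ℝ) ∈ Icc (P t) (P 0) from ⟨hPt.le, hP0.le⟩)
    have hu0 : 0 < u := by
      rcases hu.1.lt_or_eq with h | h
      · exact h
      · rw [← h] at hu'; linarith
    apply hZ k hk (u : ℂ) ⟨by simpa using hu0, by simp only [Complex.ofReal_im, abs_zero, Complex.ofReal_re]; positivity⟩
    have : ∑ j ∈ Finset.range (k + 1), a j * (u : ℂ) ^ j = ((P u : ℝ) : ℂ) := by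
      simp only [hP]
      push_cast
      exact Finset.sum_congr rfl fun j _ => by rw [hax j]
    rw [this, hu']
    simp

/-- admissible coefficient sequences: all real, or all in a sector of opening less than `π` -/
def Adm (a : ℕ → ℂ) : Prop :=
  (∀ k, (a k).im = 0) ∨ ∃ (ω : ℂ) (c : ℝ), 0 < c ∧ ∀ k, c * ‖a k‖ ≤ (ω * a k).re

theorem core_adm {ρ K : ℝ} (hρ : 0 < ρ) (hK : 0 < K) {a : ℕ → ℂ} (hZ : ZF ρ K a)
    (ha0 : a 0 ≠ 0) (hadm : Adm a) {ρ' : ℝ} (hρ' : ρ < ρ') :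
    ∃ A : ℝ, 0 < A ∧ ∀ N : ℕ, ‖a N‖ * (N.factorial : ℝ) ^ (1 / ρ') ≤ A := by
  rcases hadm with hre | ⟨ω, c, hc, hsec⟩
  · have hnorm : ∀ z : ℂ, z.im = 0 → ‖z‖ = |z.re| := by
      intro z hz
      have : z = (z.re : ℂ) := Complex.ext (by simp) (by simp [hz])
      conv_lhs => rw [this]
      simp
    have ha0r : (a 0).re ≠ 0 := by
      intro h
      exact ha0 (Complex.ext (by simpa using h) (by simpa using hre 0))
    rcases lt_or_gt_of_ne ha0r with h | h
    · have hs := signs hK (hZ.smul (ω := -1) (by norm_num)) (a := fun k => -1 * a k)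
        (by intro k; simp [hre k]) (by simpa using h)
      refine core_sector hρ hK hZ ha0 (ω := -1) (c := 1) one_pos (fun k => ?_) hρ'
      rw [one_mul, hnorm _ (hre k)]
      have h1 := hs k
      simp only [neg_mul, one_mul, Complex.neg_re] at h1 ⊢
      rw [abs_of_nonpos (by linarith)]
    · have hs := signs hK hZ hre h
      refine core_sector hρ hK hZ ha0 (ω := 1) (c := 1) one_pos (fun k => ?_) hρ'
      rw [one_mul, one_mul, hnorm _ (hre k), abs_of_nonneg (hs k)]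
  · exact core_sector hρ hK hZ ha0 hc hsec hρ'

/-- shift by one -/
theorem ZF.shift {ρ K : ℝ} {a : ℕ → ℂ} (hZ : ZF ρ K a) (ha0 : a 0 = 0) :
    ZF ρ K (fun k => a (k + 1)) := by
  intro n hn z hz h
  apply hZ (n + 1) (by omega) z hz
  rw [Finset.sum_range_succ', ha0, zero_mul, add_zero]
  have : ∑ k ∈ Finset.range (n + 1), a (k + 1) * z ^ (k + 1) =
      (∑ k ∈ Finset.range (n + 1), a (k + 1) * z ^ k) * z := by
    rw [Finset.sum_mul]
    exact Finset.sum_congr rfl fun k _ => by ring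
  rw [this, h, zero_mul]

theorem growth_adm {ρ K : ℝ} (hρ : 0 < ρ) (hK : 0 < K) {a : ℕ → ℂ} (hZ : ZF ρ K a)
    (hadm : Adm a) {ρ' : ℝ} (hρ' : ρ < ρ') :
    ∃ A c : ℝ, 0 < A ∧ 0 ≤ c ∧ ∀ r : ℝ, 0 ≤ r → Summable (fun k => ‖a k‖ * r ^ k) ∧
      ∑' k, ‖a k‖ * r ^ k ≤ A * (1 + r) * Real.exp (c * r ^ ρ') := by
  have hρ'0 : 0 < ρ' := hρ.trans hρ'
  have hr2 : ∀ r : ℝ, 0 ≤ r → 1 / ρ' * (2 * r) ^ ρ' = 1 / ρ' * 2 ^ ρ' * r ^ ρ' := by
    intro r hr
    rw [Real.mul_rpow (by norm_num) hr]; ring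
  by_cases ha0 : a 0 = 0
  · have ha1 : a 1 ≠ 0 := by
      intro h1
      apply hZ 1 le_rfl 1 ⟨by simp, by simpa using hK⟩
      rw [Finset.sum_range_succ, Finset.sum_range_succ, Finset.sum_range_zero, ha0, h1]
      simp
    have hadm' : Adm (fun k => a (k + 1)) := by
      rcases hadm with h | ⟨ω, c, hc, h⟩
      · exact Or.inl fun k => h (k + 1)
      · exact Or.inr ⟨ω, c, hc, fun k => h (k + 1)⟩
    obtain ⟨A, hA, h⟩ := core_adm hρ hK (hZ.shift ha0) (by simpa using ha1) hadm' hρ'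
    refine ⟨2 * A, 1 / ρ' * 2 ^ ρ', by positivity, by positivity, fun r hr => ?_⟩
    obtain ⟨h1, h2⟩ := growth (b := fun k => ‖a (k + 1)‖) (fun k => norm_nonneg _) hρ'0 hA h hr
    have e1 : ∀ k, ‖a (k + 1)‖ * r ^ (k + 1) = r * (‖a (k + 1)‖ * r ^ k) := fun k => by ring
    have h3 : Summable (fun k => ‖a (k + 1)‖ * r ^ (k + 1)) := by
      simp only [e1]; exact h1.mul_left r
    have h4 : Summable (fun k => ‖a k‖ * r ^ k) := (summable_nat_add_iff 1).1 h3
    refine ⟨h4, ?_⟩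
    rw [h4.tsum_eq_zero_add]
    simp only [ha0, norm_zero, zero_mul, zero_add, e1]
    rw [tsum_mul_left]
    rw [hr2 r hr] at h2
    have h5 : 0 ≤ ∑' k, ‖a (k + 1)‖ * r ^ k := tsum_nonneg fun k => by positivity
    set E : ℝ := Real.exp (1 / ρ' * 2 ^ ρ' * r ^ ρ')
    calc r * ∑' k, ‖a (k + 1)‖ * r ^ k ≤ (1 + r) * (2 * A * E) := by
          apply mul_le_mul (by linarith) h2 h5 (by linarith)
      _ = _ := by ring
  · obtain ⟨A, hA, h⟩ := core_adm hρ hK hZ ha0 hadm hρ'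
    refine ⟨2 * A, 1 / ρ' * 2 ^ ρ', by positivity, by positivity, fun r hr => ?_⟩
    obtain ⟨h1, h2⟩ := growth (b := fun k => ‖a k‖) (fun k => norm_nonneg _) hρ'0 hA h hr
    refine ⟨h1, h2.trans ?_⟩
    rw [hr2 r hr]
    have h6 := Real.exp_pos (1 / ρ' * 2 ^ ρ' * r ^ ρ')
    set E : ℝ := Real.exp (1 / ρ' * 2 ^ ρ' * r ^ ρ')
    nlinarith [mul_nonneg (mul_nonneg hA.le hr) h6.le]

end Pool.Agent.Helper80.Width
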