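import Pool.Agent.Helper80.Width.Vari

/-!
The mean index and its growth.
-/

set_option autoImplicit false

open Set

namespace Pool.Agent.Helper80.Width

theorem hasDerivAt_WW (b : ℕ → ℝ) (n : ℕ) (σ : ℝ) :
    HasDerivAt (WW b n) (WW (fun k => k * b k) n σ) σ := by
  unfold WW
  apply HasDerivAt.fun_sum
  intro k _
  have h1 : HasDerivAt (fun s : ℝ => (k:ℝ) * s) ((k:ℝ) * 1) σ := (hasDerivAt_id σ).const_mul _
  have h2 := (h1.exp).const_mul (b k)
  refine h2.congr_deriv ?_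
  beta_reduce
  ring

/-- mean index -/
noncomputable def mm (b : ℕ → ℝ) (n : ℕ) (σ : ℝ) : ℝ := WW (fun k => k * b k) n σ / WW b n σ

theorem hasDerivAt_mm (b : ℕ → ℝ) (n : ℕ) (σ : ℝ) (h : WW b n σ ≠ 0) :
    HasDerivAt (mm b n) ((WW (fun k => k * (k * b k)) n σ * WW b n σ -
      WW (fun k => k * b k) n σ ^ 2) / WW b n σ ^ 2) σ := by
  have h1 := (hasDerivAt_WW (fun k => k * b k) n σ).div (hasDerivAt_WW b n σ) h
  refine h1.congr_deriv ?_
  ring

theorem WW_pos {b : ℕ → ℝ} (hb : ∀ k, 0 ≤ b k) (hb0 : 0 < b 0) {n : ℕ} (hn : 1 ≤ n) (σ : ℝ) :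
    0 < WW b n σ := by
  rw [WW]
  refine Finset.sum_pos' (fun k _ => mul_nonneg (hb k) (Real.exp_pos _).le)
    ⟨0, Finset.mem_range.2 (by omega), ?_⟩
  positivity

/-- the hypothesis coming from complex analysis -/
def HG (D ρ K : ℝ) (b : ℕ → ℝ) : Prop :=
  ∀ (n : ℕ) (σ : ℝ), 1 ≤ n → 0 < b n →
      ∑ k ∈ Finset.range n, ((n:ℝ) - k) ^ 2 * (b k * Real.exp (k * σ)) ≤
      D * BB ρ K σ ^ 2 * (1 + |Real.log (b n * Real.exp (n * σ) / WW b n σ)|) ^ 2 * WW b n σ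

theorem deriv_mm_le {D ρ K C : ℝ} (hK : 0 < K) {b : ℕ → ℝ} (hb : ∀ k, 0 ≤ b k) (hb0 : 0 < b 0)
    (hD : 1 ≤ D) (hG : HG D ρ K b) (hC : ∀ σ : ℝ, BB ρ K σ ^ 2 ≤ C * (1 + Real.exp (ρ * σ)))
    {N : ℕ} (hN : 1 ≤ N) (σ : ℝ) :
    (WW (fun k => k * (k * b k)) N σ * WW b N σ -
      WW (fun k => k * b k) N σ ^ 2) / WW b N σ ^ 2 ≤
      17 * D * C * (1 + Real.log N) ^ 2 * (1 + Real.exp (ρ * σ)) := by
  have hB := BB_pos (ρ := ρ) hK σ
  have hD' : 1 ≤ D * BB ρ K σ ^ 2 := by nlinarith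
  obtain ⟨m, hm⟩ := var_point (fun k => b k * Real.exp (k * σ))
    (fun k => mul_nonneg (hb k) (Real.exp_pos _).le) (by positivity) hD'
    (by
      intro n hn htn
      have hbn : 0 < b n := by
        rcases (hb n).lt_or_eq with h | h
        · exact h
        · simp only [← h, zero_mul, lt_irrefl] at htn
      exact hG n σ hn hbn) N hN
  have hW := WW_pos hb hb0 hN σ
  have hWe : ∑ k ∈ Finset.range N, b k * Real.exp (k * σ) = WW b N σ := rfl
  rw [hWe] at hm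
  have e1 : ∑ k ∈ Finset.range N, ((k:ℝ) - m) ^ 2 * (b k * Real.exp (k * σ)) =
      WW (fun k => k * (k * b k)) N σ - 2 * m * WW (fun k => k * b k) N σ + m ^ 2 * WW b N σ := by
    simp only [WW, Finset.mul_sum, ← Finset.sum_sub_distrib, ← Finset.sum_add_distrib]
    refine Finset.sum_congr rfl fun k _ => ?_
    ring
  rw [e1] at hm
  set W := WW b N σ
  set M1 := WW (fun k => k * b k) N σ
  set M2 := WW (fun k => k * (k * b k)) N σ
  rw [div_le_iff₀ (by positivity)]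
  have h1 : M2 * W - M1 ^ 2 ≤ (M2 - 2 * m * M1 + m ^ 2 * W) * W := by
    nlinarith [sq_nonneg (M1 - m * W)]
  have h2 : (M2 - 2 * m * M1 + m ^ 2 * W) * W ≤
      (17 * (D * BB ρ K σ ^ 2) * (1 + Real.log N) ^ 2 * W) * W :=
    mul_le_mul_of_nonneg_right hm hW.le
  have h3 : 17 * (D * BB ρ K σ ^ 2) * (1 + Real.log N) ^ 2 ≤
      17 * D * C * (1 + Real.log N) ^ 2 * (1 + Real.exp (ρ * σ)) := by
    have h4 : D * BB ρ K σ ^ 2 ≤ D * (C * (1 + Real.exp (ρ * σ))) :=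
      mul_le_mul_of_nonneg_left (hC σ) (by linarith)
    have h5 : 0 ≤ (1 + Real.log N) ^ 2 := sq_nonneg _
    nlinarith
  calc M2 * W - M1 ^ 2 ≤ (17 * (D * BB ρ K σ ^ 2) * (1 + Real.log N) ^ 2 * W) * W := h1.trans h2
    _ = 17 * (D * BB ρ K σ ^ 2) * (1 + Real.log N) ^ 2 * W ^ 2 := by ring
    _ ≤ _ := mul_le_mul_of_nonneg_right h3 (by positivity)

/-- growth of the mean index -/
theorem mm_growth {D ρ K C : ℝ} (hρ : 0 < ρ) (hK : 0 < K) {b : ℕ → ℝ} (hb : ∀ k, 0 ≤ b k)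
    (hb0 : 0 < b 0) (hD : 1 ≤ D) (hG : HG D ρ K b)
    (hC : ∀ σ : ℝ, BB ρ K σ ^ 2 ≤ C * (1 + Real.exp (ρ * σ)))
    {N : ℕ} (hN : 1 ≤ N) {σ0 σ : ℝ} (h : σ0 ≤ σ) :
    mm b N σ ≤ mm b N σ0 + 17 * D * C * (1 + Real.log N) ^ 2 *
      ((σ - σ0) + (Real.exp (ρ * σ) - Real.exp (ρ * σ0)) / ρ) := by
  set A : ℝ := 17 * D * C * (1 + Real.log N) ^ 2 with hA
  have hg : ∀ x : ℝ, HasDerivAt (fun x => mm b N x - A * (x + Real.exp (ρ * x) / ρ))
      ((WW (fun k => k * (k * b k)) N x * WW b N x -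
      WW (fun k => k * b k) N x ^ 2) / WW b N x ^ 2 - A * (1 + Real.exp (ρ * x))) x := by
    intro x
    have h1 := hasDerivAt_mm b N x (WW_pos hb hb0 hN x).ne'
    have h2 : HasDerivAt (fun x : ℝ => ρ * x) (ρ * 1) x := (hasDerivAt_id x).const_mul _
    have h3 := ((hasDerivAt_id x).add (h2.exp.div_const ρ)).const_mul A
    refine (h1.sub h3).congr_deriv ?_
    have : Real.exp (ρ * x) * (ρ * 1) / ρ = Real.exp (ρ * x) := by field_simp
    rw [this]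
  have hanti : Antitone (fun x => mm b N x - A * (x + Real.exp (ρ * x) / ρ)) := by
    apply antitone_of_deriv_nonpos
    · intro x; exact (hg x).differentiableAt
    · intro x
      rw [(hg x).deriv]
      have := deriv_mm_le hK hb hb0 hD hG hC hN x
      rw [← hA] at this
      linarith
  have := hanti h
  simp only at this
  have e : A * ((σ - σ0) + (Real.exp (ρ * σ) - Real.exp (ρ * σ0)) / ρ) =
      A * (σ + Real.exp (ρ * σ) / ρ) - A * (σ0 + Real.exp (ρ * σ0) / ρ) := by ring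
  rw [e]
  linarith

end Pool.Agent.Helper80.Width
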