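import Pool.Agent.Helper80.Width.Ode

/-!
Positive radius of convergence and the index inequality.
-/

set_option autoImplicit false

open Set

namespace Pool.Agent.Helper80.Width

/-- an elementary estimate -/
theorem one_add_log_sq_le {η : ℝ} (hη : 0 < η) {x : ℝ} (hx : 1 ≤ x) :
    (1 + Real.log x) ^ 2 ≤ (1 + 2 / η) ^ 2 * x ^ η := by
  have h1 : Real.log x ≤ x ^ (η / 2) / (η / 2) :=
    Real.log_le_rpow_div (by linarith) (by positivity)
  have h2 : 1 ≤ x ^ (η / 2) := Real.one_le_rpow hx (by positivity)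
  have h3 : 1 + Real.log x ≤ (1 + 2 / η) * x ^ (η / 2) := by
    have : x ^ (η / 2) / (η / 2) = 2 / η * x ^ (η / 2) := by field_simp
    rw [this] at h1
    linarith
  have h4 : 0 ≤ 1 + Real.log x := by
    have := Real.log_nonneg hx
    linarith
  have h5 := pow_le_pow_left₀ h4 h3 2
  rw [mul_pow, ← Real.rpow_natCast (x ^ (η / 2)) 2, ← Real.rpow_mul (by linarith)] at h5
  have h6 : η / 2 * ((2:ℕ):ℝ) = η := by push_cast; ring
  rwa [h6] at h5

/-- geometric bound for the coefficients -/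
theorem radius {D ρ K C : ℝ} (hρ : 0 < ρ) {b : ℕ → ℝ} (hb : ∀ k, 0 ≤ b k)
    (hb0 : 0 < b 0) (hD : 1 ≤ D) (hG : HG D ρ K b) (hC1 : 1 ≤ C)
    (hC : ∀ σ : ℝ, BB ρ K σ ^ 2 ≤ C * (1 + Real.exp (ρ * σ))) :
    ∃ Λ : ℝ, 0 ≤ Λ ∧ ∀ k : ℕ, b k ≤ b 0 * Real.exp (Λ * k) := by
  -- the threshold
  set c : ℝ := 2 * C * D * (1 + 2 / (1/2 : ℝ)) ^ 2 with hc
  have hc0 : 0 < c := by positivity
  obtain ⟨n0, hn0⟩ := exists_nat_gt (c ^ 2)
  set Λ : ℝ := ∑ k ∈ Finset.range (n0 + 1), b k / b 0 with hΛ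
  have hΛ0 : 0 ≤ Λ := Finset.sum_nonneg fun k _ => div_nonneg (hb k) hb0.le
  refine ⟨Λ, hΛ0, ?_⟩
  intro k
  induction k using Nat.strong_induction_on with
  | _ k ih =>
    rcases Nat.eq_zero_or_pos k with hk | hk
    · subst hk; simp
    rcases Nat.lt_or_ge n0 k with hkn | hkn
    · by_contra hcon
      push Not at hcon
      have hbk : 0 < b k := lt_of_le_of_lt (by positivity) hcon
      have hkr : (1:ℝ) ≤ k := by exact_mod_cast hk
      set σ : ℝ := - (Real.log (b k / b 0) / k) with hσ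
      have hσΛ : σ < - Λ := by
        have h1 : Λ * k < Real.log (b k / b 0) := by
          rw [Real.lt_log_iff_exp_lt (by positivity), lt_div_iff₀ hb0]
          linarith
        rw [hσ]
        have : Λ < Real.log (b k / b 0) / k := by
          rw [lt_div_iff₀ (by linarith)]; exact h1
        linarith
      have htk : b k * Real.exp (k * σ) = b 0 := by
        have : (k:ℝ) * σ = - Real.log (b k / b 0) := by
          rw [hσ]; field_simp
        rw [this, Real.exp_neg, Real.exp_log (by positivity)]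
        field_simp
      have htj : ∀ j, j < k → b j * Real.exp (j * σ) ≤ b 0 := by
        intro j hj
        calc b j * Real.exp (j * σ) ≤ b 0 * Real.exp (Λ * j) * Real.exp (j * σ) :=
              mul_le_mul_of_nonneg_right (ih j hj) (Real.exp_pos _).le
          _ = b 0 * Real.exp ((Λ + σ) * j) := by
              rw [mul_assoc, ← Real.exp_add]; congr 2; ring
          _ ≤ b 0 * 1 := by
              apply mul_le_mul_of_nonneg_left _ hb0.le
              apply Real.exp_le_one_iff.2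
              have : (0:ℝ) ≤ j := Nat.cast_nonneg j
              nlinarith
          _ = b 0 := mul_one _
      have hW := WW_pos hb hb0 hk σ
      have hWle : WW b k σ ≤ k * b 0 := by
        rw [WW]
        refine (Finset.sum_le_card_nsmul _ _ (b 0) ?_).trans ?_
        · intro j hj; exact htj j (Finset.mem_range.1 hj)
        · rw [Finset.card_range, nsmul_eq_mul]
      have hWge : b 0 ≤ WW b k σ := by
        rw [WW]
        have := Finset.single_le_sum (f := fun j : ℕ => b j * Real.exp (j * σ))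
          (fun j _ => mul_nonneg (hb j) (Real.exp_pos _).le) (Finset.mem_range.2 hk)
        simpa using this
      have h1 := hG k σ hk hbk
      rw [htk] at h1
      have hlog : |Real.log (b 0 / WW b k σ)| ≤ Real.log k := by
        rw [abs_of_nonpos (Real.log_nonpos (by positivity) (by rw [div_le_one hW]; exact hWge)),
          ← Real.log_inv]
        apply Real.log_le_log (by positivity)
        rw [inv_div, div_le_iff₀ hb0]
        exact hWle
      have h2 : (k:ℝ) ^ 2 * b 0 ≤ ∑ j ∈ Finset.range k, ((k:ℝ) - j) ^ 2 * (b j * Real.exp (j * σ)) := by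
        have := Finset.single_le_sum (f := fun j : ℕ => ((k:ℝ) - j) ^ 2 * (b j * Real.exp (j * σ)))
          (fun j _ => mul_nonneg (sq_nonneg _) (mul_nonneg (hb j) (Real.exp_pos _).le))
          (Finset.mem_range.2 hk)
        simpa using this
      have hBB : BB ρ K σ ^ 2 ≤ 2 * C := by
        refine (hC σ).trans ?_
        have : Real.exp (ρ * σ) ≤ 1 := by
          apply Real.exp_le_one_iff.2
          have : σ < 0 := by linarith
          nlinarith
        nlinarith
      have h3 : D * BB ρ K σ ^ 2 * (1 + |Real.log (b 0 / WW b k σ)|) ^ 2 * WW b k σ ≤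
          D * (2 * C) * (1 + Real.log k) ^ 2 * (k * b 0) := by
        gcongr
      have h4 : (k:ℝ) ^ 2 * b 0 ≤ D * (2 * C) * (1 + Real.log k) ^ 2 * (k * b 0) :=
        h2.trans (h1.trans h3)
      have h5 : (k:ℝ) ≤ D * (2 * C) * (1 + Real.log k) ^ 2 := by
        have h6 : (k:ℝ) * (k * b 0) ≤ D * (2 * C) * (1 + Real.log k) ^ 2 * (k * b 0) := by
          calc (k:ℝ) * (k * b 0) = (k:ℝ) ^ 2 * b 0 := by ring
            _ ≤ _ := h4
        exact le_of_mul_le_mul_right h6 (by positivity)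
      have h6 := one_add_log_sq_le (η := 1/2) (by norm_num) hkr
      have h7 : (k:ℝ) ≤ c * (k:ℝ) ^ ((1:ℝ)/2) := by
        calc (k:ℝ) ≤ D * (2 * C) * (1 + Real.log k) ^ 2 := h5
          _ ≤ D * (2 * C) * ((1 + 2 / (1/2 : ℝ)) ^ 2 * (k:ℝ) ^ ((1:ℝ)/2)) :=
            mul_le_mul_of_nonneg_left h6 (by positivity)
          _ = _ := by rw [hc]; ring
      have h8 : (k:ℝ) = (k:ℝ) ^ ((1:ℝ)/2) * (k:ℝ) ^ ((1:ℝ)/2) := by
        rw [← Real.rpow_add (by linarith)]; norm_num
      have h9 : 0 < (k:ℝ) ^ ((1:ℝ)/2) := by positivity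
      have h10 : (k:ℝ) ^ ((1:ℝ)/2) ≤ c := by
        have : (k:ℝ) ^ ((1:ℝ)/2) * (k:ℝ) ^ ((1:ℝ)/2) ≤ c * (k:ℝ) ^ ((1:ℝ)/2) := by
          rw [← h8]; exact h7
        exact le_of_mul_le_mul_right this h9
      have h11 : (k:ℝ) ≤ c ^ 2 := by
        rw [h8]; nlinarith
      have h12 : (n0:ℝ) < k := by exact_mod_cast hkn
      linarith
    · have h1 : b k / b 0 ≤ Λ :=
        Finset.single_le_sum (f := fun k => b k / b 0) (fun k _ => div_nonneg (hb k) hb0.le)
          (Finset.mem_range.2 (by omega))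
      have h2 : Λ ≤ Real.exp (Λ * k) := by
        have h3 : Λ + 1 ≤ Real.exp Λ := Real.add_one_le_exp _
        have h4 : Real.exp Λ ≤ Real.exp (Λ * k) := by
          apply Real.exp_le_exp.2
          have : (1:ℝ) ≤ k := by exact_mod_cast hk
          nlinarith
        linarith
      rw [div_le_iff₀ hb0] at h1
      nlinarith

/-- the index inequality -/
theorem index_ineq {D ρ K C : ℝ} (hρ : 0 < ρ) (hK : 0 < K) {b : ℕ → ℝ} (hb : ∀ k, 0 ≤ b k)
    (hb0 : 0 < b 0) (hD : 1 ≤ D) (hG : HG D ρ K b) (hC1 : 1 ≤ C)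
    (hC : ∀ σ : ℝ, BB ρ K σ ^ 2 ≤ C * (1 + Real.exp (ρ * σ))) :
    ∃ M : ℝ, 0 < M ∧ ∀ N : ℕ, 1 ≤ N → 0 < b N → ∃ s : ℝ, ∃ k < N,
      b N * Real.exp (N * s) = b k * Real.exp (k * s) ∧
      (N:ℝ) ≤ M * (1 + Real.log N) ^ 2 * (1 + Real.exp (ρ * s)) := by
  classical
  obtain ⟨Λ, hΛ0, hΛ⟩ := radius hρ hb hb0 hD hG hC1 hC
  refine ⟨2 + 17 * D * C * (Λ + 2 + 2 / ρ) + D * C, by positivity, ?_⟩
  intro N hN hbN
  have hNr : (1:ℝ) ≤ N := by exact_mod_cast hN
  have hlogN : 0 ≤ Real.log N := Real.log_nonneg hNr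
  obtain ⟨k0, hk0, hmax⟩ := Finset.exists_max_image ((Finset.range N).filter (fun k => 0 < b k))
    (fun k => Real.log (b k / b N) / ((N:ℝ) - k)) ⟨0, by
      rw [Finset.mem_filter, Finset.mem_range]; exact ⟨by omega, hb0⟩⟩
  rw [Finset.mem_filter, Finset.mem_range] at hk0
  set s : ℝ := Real.log (b k0 / b N) / ((N:ℝ) - k0) with hs
  have hdiff : ∀ k, k < N → 0 < (N:ℝ) - k := by
    intro k hk
    have : (k:ℝ) < N := by exact_mod_cast hk
    linarith
  have hle : ∀ k, k < N → b k * Real.exp (k * s) ≤ b N * Real.exp (N * s) := by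
    intro k hk
    rcases (hb k).lt_or_eq with hbk | hbk
    · have h1 := hmax k (by rw [Finset.mem_filter, Finset.mem_range]; exact ⟨hk, hbk⟩)
      rw [div_le_iff₀ (hdiff k hk), Real.log_le_iff_le_exp (by positivity),
        div_le_iff₀ hbN] at h1
      calc b k * Real.exp (k * s) ≤ Real.exp (s * ((N:ℝ) - k)) * b N * Real.exp (k * s) :=
            mul_le_mul_of_nonneg_right h1 (Real.exp_pos _).le
        _ = b N * (Real.exp (s * ((N:ℝ) - k)) * Real.exp (k * s)) := by ring
        _ = _ := by rw [← Real.exp_add]; congr 2; ring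
    · rw [← hbk, zero_mul]; positivity
  have heq : b N * Real.exp (N * s) = b k0 * Real.exp (k0 * s) := by
    have h1 : s * ((N:ℝ) - k0) = Real.log (b k0 / b N) := by
      rw [hs]; field_simp [(hdiff k0 hk0.1).ne']
    have h2 : b k0 = Real.exp (s * ((N:ℝ) - k0)) * b N := by
      rw [h1, Real.exp_log (div_pos hk0.2 hbN)]; field_simp
    conv_rhs => rw [h2]
    rw [mul_comm (Real.exp _) (b N), mul_assoc, ← Real.exp_add]
    congr 2; ring
  refine ⟨s, k0, hk0.1, heq, ?_⟩
  -- lower bound for s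
  have hsΛ : - Λ ≤ s := by
    have h1 := hle 0 (by omega)
    have h2 := hΛ N
    have h3 : b 0 ≤ b 0 * Real.exp (Λ * N) * Real.exp (N * s) := by
      calc b 0 = b 0 * Real.exp ((0:ℕ) * s) := by simp
        _ ≤ b N * Real.exp (N * s) := h1
        _ ≤ _ := mul_le_mul_of_nonneg_right h2 (Real.exp_pos _).le
    rw [mul_assoc, ← Real.exp_add] at h3
    have h4 : 1 ≤ Real.exp (Λ * N + N * s) := by
      by_contra hcon
      push Not at hcon
      nlinarith
    have h5 : 0 ≤ Λ * N + N * s := by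
      by_contra hcon
      push Not at hcon
      have := Real.exp_lt_one_iff.2 hcon
      linarith
    by_contra hcon
    push Not at hcon
    nlinarith
  have hW := WW_pos hb hb0 hN s
  have hG' := hG N s hN hbN
  set T : ℝ := b N * Real.exp (N * s) with hT
  have hT0 : 0 < T := by positivity
  have hWle : WW b N s ≤ N * T := by
    rw [WW]
    refine (Finset.sum_le_card_nsmul _ _ T ?_).trans ?_
    · intro j hj; exact hle j (Finset.mem_range.1 hj)
    · rw [Finset.card_range, nsmul_eq_mul]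
  have hWge : T ≤ WW b N s := by
    rw [WW, heq]
    exact Finset.single_le_sum (f := fun j : ℕ => b j * Real.exp (j * s))
      (fun j _ => mul_nonneg (hb j) (Real.exp_pos _).le) (Finset.mem_range.2 hk0.1)
  have hlog : |Real.log (T / WW b N s)| ≤ Real.log N := by
    rw [abs_of_nonpos (Real.log_nonpos (by positivity) (by rw [div_le_one hW]; exact hWge)),
      ← Real.log_inv]
    apply Real.log_le_log (by positivity)
    rw [inv_div, div_le_iff₀ hT0]
    exact hWle
  -- N - mean
  have hmean : (N:ℝ) - mm b N s ≤ D * BB ρ K s ^ 2 * (1 + Real.log N) ^ 2 := by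
    have h1 : ((N:ℝ) - mm b N s) * WW b N s =
        ∑ k ∈ Finset.range N, ((N:ℝ) - k) * (b k * Real.exp (k * s)) := by
      rw [mm, sub_mul, div_mul_cancel₀ _ hW.ne']
      simp only [WW, Finset.mul_sum, ← Finset.sum_sub_distrib]
      refine Finset.sum_congr rfl fun k _ => ?_
      ring
    have h2 : ∑ k ∈ Finset.range N, ((N:ℝ) - k) * (b k * Real.exp (k * s)) ≤
        ∑ k ∈ Finset.range N, ((N:ℝ) - k) ^ 2 * (b k * Real.exp (k * s)) := by
      refine Finset.sum_le_sum fun k hk => ?_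
      apply mul_le_mul_of_nonneg_right _ (mul_nonneg (hb k) (Real.exp_pos _).le)
      have h3 : (1:ℝ) ≤ (N:ℝ) - k := by
        have : k + 1 ≤ N := Finset.mem_range.1 hk
        have : (k:ℝ) + 1 ≤ N := by exact_mod_cast this
        linarith
      nlinarith
    have h3 : D * BB ρ K s ^ 2 * (1 + |Real.log (T / WW b N s)|) ^ 2 * WW b N s ≤
        D * BB ρ K s ^ 2 * (1 + Real.log N) ^ 2 * WW b N s := by
      gcongr
    have h4 : ((N:ℝ) - mm b N s) * WW b N s ≤
        D * BB ρ K s ^ 2 * (1 + Real.log N) ^ 2 * WW b N s := by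
      rw [h1]; exact h2.trans (hG'.trans h3)
    exact le_of_mul_le_mul_right h4 hW
  -- mean at the starting point
  set σ0 : ℝ := - Λ - 2 with hσ0
  have hm0 : mm b N σ0 ≤ 2 := by
    have hW0 := WW_pos hb hb0 hN σ0
    rw [mm, div_le_iff₀ hW0]
    have hWge0 : b 0 ≤ WW b N σ0 := by
      rw [WW]
      have := Finset.single_le_sum (f := fun j : ℕ => b j * Real.exp (j * σ0))
        (fun j _ => mul_nonneg (hb j) (Real.exp_pos _).le) (Finset.mem_range.2 hN)
      simpa using this
    have h1 : WW (fun k => k * b k) N σ0 ≤ ∑ k ∈ Finset.range N, b 0 * (1/2 : ℝ) ^ k := by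
      rw [WW]
      refine Finset.sum_le_sum fun k _ => ?_
      have h2 : (k:ℝ) ≤ Real.exp k := by
        have := Real.add_one_le_exp (k:ℝ)
        linarith
      have h3 : Real.exp (- (k:ℝ)) ≤ (1/2 : ℝ) ^ k := by
        have h4 : Real.exp (- (k:ℝ)) = Real.exp (-1) ^ k := by
          rw [← Real.exp_nat_mul]; congr 1; ring
        rw [h4]
        apply pow_le_pow_left₀ (Real.exp_pos _).le
        rw [Real.exp_neg, one_div]
        apply inv_anti₀ (by norm_num)
        have := Real.add_one_le_exp (1:ℝ)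
        linarith
      calc (k:ℝ) * b k * Real.exp (k * σ0)
          ≤ Real.exp k * (b 0 * Real.exp (Λ * k)) * Real.exp (k * σ0) := by
            apply mul_le_mul_of_nonneg_right _ (Real.exp_pos _).le
            exact mul_le_mul h2 (hΛ k) (hb k) (Real.exp_pos _).le
        _ = b 0 * Real.exp (- (k:ℝ)) := by
            have : Real.exp k * (b 0 * Real.exp (Λ * k)) * Real.exp (k * σ0) =
              b 0 * (Real.exp k * Real.exp (Λ * k) * Real.exp (k * σ0)) := by ring
            rw [this, ← Real.exp_add, ← Real.exp_add]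
            congr 2; rw [hσ0]; ring
        _ ≤ _ := mul_le_mul_of_nonneg_left h3 hb0.le
    have h2 : ∑ k ∈ Finset.range N, b 0 * (1/2 : ℝ) ^ k ≤ b 0 * 2 := by
      rw [← Finset.mul_sum]
      apply mul_le_mul_of_nonneg_left _ hb0.le
      have h3 : Summable fun k : ℕ => (1/2 : ℝ) ^ k := summable_geometric_two
      have h4 := h3.sum_le_tsum (Finset.range N) (fun k _ => by positivity)
      rw [tsum_geometric_two] at h4
      exact h4
    linarith
  have hgrow := mm_growth hρ hK hb hb0 hD hG hC hN (show σ0 ≤ s by rw [hσ0]; linarith)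
  have hBs : D * BB ρ K s ^ 2 * (1 + Real.log N) ^ 2 ≤
      D * C * (1 + Real.log N) ^ 2 * (1 + Real.exp (ρ * s)) := by
    have h4 : D * BB ρ K s ^ 2 ≤ D * (C * (1 + Real.exp (ρ * s))) :=
      mul_le_mul_of_nonneg_left (hC s) (by linarith)
    have h5 : 0 ≤ (1 + Real.log N) ^ 2 := sq_nonneg _
    calc D * BB ρ K s ^ 2 * (1 + Real.log N) ^ 2 ≤
        D * (C * (1 + Real.exp (ρ * s))) * (1 + Real.log N) ^ 2 :=
          mul_le_mul_of_nonneg_right h4 h5
      _ = _ := by ring
  have hexp : (s - σ0) + (Real.exp (ρ * s) - Real.exp (ρ * σ0)) / ρ ≤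
      (Λ + 2 + 2 / ρ) * (1 + Real.exp (ρ * s)) := by
    have h1 : s ≤ Real.exp (ρ * s) / ρ := by
      rw [le_div_iff₀ hρ]
      have := Real.add_one_le_exp (ρ * s)
      nlinarith
    have h2 : (Real.exp (ρ * s) - Real.exp (ρ * σ0)) / ρ ≤ Real.exp (ρ * s) / ρ := by
      apply div_le_div_of_nonneg_right _ hρ.le
      have := Real.exp_pos (ρ * σ0)
      linarith
    have h3 : Real.exp (ρ * s) / ρ + Real.exp (ρ * s) / ρ = 2 / ρ * Real.exp (ρ * s) := by ring
    have h4 : 0 < 2 / ρ := by positivity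
    have h5 : 0 < Real.exp (ρ * s) := Real.exp_pos _
    have h6 : 0 ≤ (Λ + 2) * Real.exp (ρ * s) := by positivity
    have h7 : (Λ + 2 + 2 / ρ) * (1 + Real.exp (ρ * s)) = (Λ + 2) + 2 / ρ +
      (Λ + 2) * Real.exp (ρ * s) + 2 / ρ * Real.exp (ρ * s) := by ring
    rw [hσ0, h7]
    linarith
  have hL : 1 ≤ (1 + Real.log N) ^ 2 := by nlinarith
  set L : ℝ := (1 + Real.log N) ^ 2 with hLdef
  have h17 : 17 * D * C * L * ((s - σ0) + (Real.exp (ρ * s) - Real.exp (ρ * σ0)) / ρ) ≤
      17 * D * C * L * ((Λ + 2 + 2 / ρ) * (1 + Real.exp (ρ * s))) :=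
    mul_le_mul_of_nonneg_left hexp (by positivity)
  have h2L : (2:ℝ) ≤ 2 * L * (1 + Real.exp (ρ * s)) := by
    have h5 : 0 < Real.exp (ρ * s) := Real.exp_pos _
    nlinarith
  have hA : (N:ℝ) - mm b N s ≤ D * C * L * (1 + Real.exp (ρ * s)) := hmean.trans hBs
  have hA2 : mm b N s ≤ 2 * L * (1 + Real.exp (ρ * s)) +
      17 * D * C * L * ((Λ + 2 + 2 / ρ) * (1 + Real.exp (ρ * s))) :=
    hgrow.trans (add_le_add (hm0.trans h2L) h17)
  calc (N:ℝ) = ((N:ℝ) - mm b N s) + mm b N s := by ring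
    _ ≤ D * C * L * (1 + Real.exp (ρ * s)) + (2 * L * (1 + Real.exp (ρ * s)) +
        17 * D * C * L * ((Λ + 2 + 2 / ρ) * (1 + Real.exp (ρ * s)))) := add_le_add hA hA2
    _ = _ := by ring

end Pool.Agent.Helper80.Width
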