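import Pool.Agent.Helper80.Width.Coord

/-!
Geometry of the region.
-/

set_option autoImplicit false

open Metric Set Complex

namespace Pool.Agent.Helper80.Width

/-- the reciprocal of the radius used at the real point `σ` -/
noncomputable def BB (ρ K σ : ℝ) : ℝ := 2 + 2 / K * Real.exp (ρ / 4) * Real.exp (ρ * σ / 2)

theorem BB_pos {ρ K : ℝ} (hK : 0 < K) (σ : ℝ) : 2 < BB ρ K σ := by
  unfold BB; have : 0 < 2 / K * Real.exp (ρ / 4) * Real.exp (ρ * σ / 2) := by positivity
  linarith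

/-- the region -/
def Reg (ρ K : ℝ) (z : ℂ) : Prop := 0 < z.re ∧ |z.im| < K * z.re ^ (1 - ρ / 2)

theorem reg_exp {ρ K : ℝ} (hρ : 0 < ρ) (hK : 0 < K) (σ : ℝ) {w : ℂ} (hw : w ∈ ball (0:ℂ) 1) :
    Reg ρ K (exp (σ + ((1 / BB ρ K σ : ℝ) : ℂ) * w)) := by
  set B := BB ρ K σ with hB
  have hB2 : 2 < B := BB_pos hK σ
  set R : ℝ := 1 / B with hR
  have hR0 : 0 < R := by positivity
  have hR2 : R ≤ 1 / 2 := one_div_le_one_div_of_le (by norm_num) hB2.le
  have hw1 : ‖w‖ < 1 := by simpa using hw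
  set s : ℂ := σ + (R : ℂ) * w with hs
  have hre : s.re = σ + R * w.re := by simp [hs]
  have him : s.im = R * w.im := by simp [hs]
  have hwre : |w.re| < 1 := (Complex.abs_re_le_norm w).trans_lt hw1
  have hwim : |w.im| < 1 := (Complex.abs_im_le_norm w).trans_lt hw1
  have hre2 : s.re ≤ σ + 1 / 2 := by
    rw [hre]
    have := (abs_lt.1 hwre).2
    nlinarith
  have him2 : |s.im| < R := by
    rw [him, abs_mul, abs_of_pos hR0]
    nlinarith
  have hcos : 1 / 2 ≤ Real.cos s.im := by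
    have h1 := Real.one_sub_sq_div_two_le_cos (x := s.im)
    have h2 : s.im ^ 2 ≤ 1 := by
      rw [← sq_abs]
      have := abs_nonneg s.im
      nlinarith
    linarith
  have hcos1 : Real.cos s.im ≤ 1 := Real.cos_le_one _
  have hcos0 : 0 < Real.cos s.im := by linarith
  have hsin : |Real.sin s.im| ≤ |s.im| := Real.abs_sin_le_abs
  refine ⟨?_, ?_⟩
  · rw [Complex.exp_re]
    have := Real.exp_pos s.re
    positivity
  · rw [Complex.exp_re, Complex.exp_im, abs_mul, abs_of_pos (Real.exp_pos _),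
      Real.mul_rpow (Real.exp_pos _).le hcos0.le, ← Real.exp_mul]
    have h1 : (1:ℝ) / 2 ≤ Real.cos s.im ^ (1 - ρ / 2) := by
      refine hcos.trans ?_
      have := Real.rpow_le_rpow_of_exponent_ge hcos0 hcos1 (show 1 - ρ / 2 ≤ 1 by linarith)
      rwa [Real.rpow_one] at this
    have h2 : Real.exp s.re * |Real.sin s.im| < Real.exp s.re * R := by
      apply mul_lt_mul_of_pos_left _ (Real.exp_pos _)
      linarith
    refine h2.trans_le ?_
    have h3 : Real.exp (s.re * (1 - ρ / 2)) = Real.exp s.re * Real.exp (- (ρ * s.re / 2)) := by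
      rw [← Real.exp_add]; congr 1; ring
    have h4 : R ≤ K * Real.exp (- (ρ * s.re / 2)) * (1 / 2) := by
      have h5 : Real.exp (- (ρ / 4)) * Real.exp (- (ρ * σ / 2)) ≤ Real.exp (- (ρ * s.re / 2)) := by
        rw [← Real.exp_add]
        apply Real.exp_le_exp.2
        nlinarith
      have h6 : R ≤ K / 2 * (Real.exp (- (ρ / 4)) * Real.exp (- (ρ * σ / 2))) := by
        rw [hR, div_le_iff₀ (by linarith)]
        have h7 : B = 2 + 2 / K * Real.exp (ρ / 4) * Real.exp (ρ * σ / 2) := rfl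
        have h8 : K / 2 * (Real.exp (- (ρ / 4)) * Real.exp (- (ρ * σ / 2))) *
            (2 / K * Real.exp (ρ / 4) * Real.exp (ρ * σ / 2)) = 1 := by
          rw [Real.exp_neg, Real.exp_neg]
          have := Real.exp_pos (ρ / 4)
          have := Real.exp_pos (ρ * σ / 2)
          field_simp
        rw [h7, mul_add, h8]
        have : 0 ≤ K / 2 * (Real.exp (- (ρ / 4)) * Real.exp (- (ρ * σ / 2))) * 2 := by positivity
        linarith
      calc R ≤ K / 2 * (Real.exp (- (ρ / 4)) * Real.exp (- (ρ * σ / 2))) := h6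
        _ ≤ K / 2 * Real.exp (- (ρ * s.re / 2)) := mul_le_mul_of_nonneg_left h5 (by positivity)
        _ = _ := by ring
    calc Real.exp s.re * R ≤ Real.exp s.re * (K * Real.exp (- (ρ * s.re / 2)) * (1 / 2)) :=
          mul_le_mul_of_nonneg_left h4 (Real.exp_pos _).le
      _ = K * (Real.exp (s.re * (1 - ρ / 2)) * (1 / 2)) := by rw [h3]; ring
      _ ≤ _ := by
        apply mul_le_mul_of_nonneg_left _ hK.le
        exact mul_le_mul_of_nonneg_left h1 (Real.exp_pos _).le

theorem BB_sq_le {ρ K : ℝ} (hK : 0 < K) : ∃ C : ℝ, 1 ≤ C ∧ ∀ σ : ℝ,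
    BB ρ K σ ^ 2 ≤ C * (1 + Real.exp (ρ * σ)) := by
  set c : ℝ := 2 / K * Real.exp (ρ / 4) with hc
  have hc0 : 0 < c := by positivity
  refine ⟨8 + 2 * c ^ 2, by nlinarith [sq_nonneg c], fun σ => ?_⟩
  have h1 : Real.exp (ρ * σ) = Real.exp (ρ * σ / 2) ^ 2 := by
    rw [← Real.exp_nat_mul]; congr 1; push_cast; ring
  have h2 : BB ρ K σ = 2 + c * Real.exp (ρ * σ / 2) := rfl
  rw [h1, h2]
  set x := Real.exp (ρ * σ / 2)
  nlinarith [sq_nonneg (2 - c * x), sq_nonneg c, sq_nonneg x, mul_nonneg (sq_nonneg c) (sq_nonneg x)]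

end Pool.Agent.Helper80.Width
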