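import Pool.Agent.Helper80.Width.Basic

/-!
Real analysis: the variance of the index and its consequences.
-/

set_option autoImplicit false

open Set

namespace Pool.Agent.Helper80.Width

/-- Variance bound at one point. `t k` are nonnegative weights. -/
theorem var_point (t : ℕ → ℝ) (ht : ∀ k, 0 ≤ t k) (ht0 : 0 < t 0) {D : ℝ} (hD : 1 ≤ D)
    (h : ∀ n : ℕ, 1 ≤ n → 0 < t n →
      ∑ k ∈ Finset.range n, ((n:ℝ) - k) ^ 2 * t k ≤
      D * (1 + |Real.log (t n / ∑ k ∈ Finset.range n, t k)|) ^ 2 * ∑ k ∈ Finset.range n, t k)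
    (N : ℕ) (hN : 1 ≤ N) :
    ∃ m : ℕ, ∑ k ∈ Finset.range N, ((k:ℝ) - m) ^ 2 * t k ≤
      17 * D * (1 + Real.log N) ^ 2 * ∑ k ∈ Finset.range N, t k := by
  classical
  set W : ℕ → ℝ := fun n => ∑ k ∈ Finset.range n, t k with hW
  have hWmono : Monotone W := by
    apply monotone_nat_of_le_succ
    intro n
    simp only [hW, Finset.sum_range_succ]
    linarith [ht n]
  have hWpos : ∀ n, 1 ≤ n → 0 < W n := by
    intro n hn
    have h1 : W 1 ≤ W n := hWmono hn
    have h2 : W 1 = t 0 := by simp [hW]
    linarith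
  have hWN : 0 < W N := hWpos N hN
  have hNr : (1:ℝ) ≤ N := by exact_mod_cast hN
  have hlogN : 0 ≤ Real.log N := Real.log_nonneg hNr
  set ε : ℝ := 1 / (N:ℝ) ^ 4 with hε
  have hε0 : 0 < ε := by positivity
  -- the tail estimate
  have htail : ∀ m : ℕ, m < N → (∀ k, m < k → k < N → t k < ε * W k) →
      ∑ k ∈ (Finset.range N).filter (fun k => m < k), ((k:ℝ) - m) ^ 2 * t k ≤ W N := by
    intro m hm hk
    have h1 : ∀ k ∈ (Finset.range N).filter (fun k => m < k), ((k:ℝ) - m) ^ 2 * t k ≤
        (N:ℝ) ^ 2 * (ε * W N) := by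
      intro k hk'
      rw [Finset.mem_filter, Finset.mem_range] at hk'
      have h2 : t k ≤ ε * W N := by
        refine (hk k hk'.2 hk'.1).le.trans ?_
        exact mul_le_mul_of_nonneg_left (hWmono hk'.1.le) hε0.le
      have h3 : ((k:ℝ) - m) ^ 2 ≤ (N:ℝ) ^ 2 := by
        have h4 : (m:ℝ) < k := by exact_mod_cast hk'.2
        have h5 : (k:ℝ) < N := by exact_mod_cast hk'.1
        have h6 : (0:ℝ) ≤ m := Nat.cast_nonneg m
        apply pow_le_pow_left₀ <;> linarith
      exact mul_le_mul h3 h2 (ht k) (by positivity)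
    refine (Finset.sum_le_card_nsmul _ _ _ h1).trans ?_
    rw [nsmul_eq_mul]
    have h2 : (((Finset.range N).filter (fun k => m < k)).card : ℝ) ≤ N := by
      have := Finset.card_filter_le (Finset.range N) (fun k => m < k)
      rw [Finset.card_range] at this
      exact_mod_cast this
    have h3 : (((Finset.range N).filter (fun k => m < k)).card : ℝ) * ((N:ℝ) ^ 2 * (ε * W N)) ≤
        N * ((N:ℝ) ^ 2 * (ε * W N)) := mul_le_mul_of_nonneg_right h2 (by positivity)
    refine h3.trans ?_
    have h4 : (N:ℝ) * ((N:ℝ) ^ 2 * (ε * W N)) = W N * (1 / N) := by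
      rw [hε]; field_simp
    rw [h4]
    have h5 : 1 / (N:ℝ) ≤ 1 := by rw [div_le_one (by linarith)]; exact hNr
    nlinarith
  have hbig : W N ≤ 17 * D * (1 + Real.log N) ^ 2 * W N := by
    have : 1 ≤ 17 * D * (1 + Real.log N) ^ 2 := by nlinarith [sq_nonneg (Real.log N)]
    nlinarith
  set S := (Finset.range N).filter (fun n => 1 ≤ n ∧ ε * W n ≤ t n) with hS
  by_cases hSe : S.Nonempty
  · -- last significant index
    set n := S.max' hSe with hn
    have hnS := S.max'_mem hSe
    rw [← hn, hS, Finset.mem_filter, Finset.mem_range] at hnS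
    obtain ⟨hnN, hn1, hnt⟩ := hnS
    have hafter : ∀ k, n < k → k < N → t k < ε * W k := by
      intro k hk1 hk2
      by_contra hcon
      push Not at hcon
      have : k ∈ S := by
        rw [hS, Finset.mem_filter, Finset.mem_range]
        exact ⟨hk2, by omega, hcon⟩
      have := S.le_max' k this
      omega
    refine ⟨n, ?_⟩
    have hWn : 0 < W n := hWpos n hn1
    have htn : 0 < t n := lt_of_lt_of_le (by positivity) hnt
    have hsplit : ∑ k ∈ Finset.range N, ((k:ℝ) - n) ^ 2 * t k =
        ∑ k ∈ Finset.range n, ((n:ℝ) - k) ^ 2 * t k +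
        ∑ k ∈ (Finset.range N).filter (fun k => n < k), ((k:ℝ) - n) ^ 2 * t k := by
      rw [← Finset.sum_filter_add_sum_filter_not (Finset.range N) (fun k => n < k), add_comm]
      congr 1
      have e1 : (Finset.range N).filter (fun k => ¬ n < k) = Finset.range (n + 1) := by
        ext k; simp only [Finset.mem_filter, Finset.mem_range]; omega
      rw [e1, Finset.sum_range_succ]
      have : ∑ k ∈ Finset.range n, ((k:ℝ) - n) ^ 2 * t k =
          ∑ k ∈ Finset.range n, ((n:ℝ) - k) ^ 2 * t k :=
        Finset.sum_congr rfl fun k _ => by ring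
      rw [this]; ring
    rw [hsplit]
    have h1 := h n hn1 htn
    have h2 := htail n hnN hafter
    set p : ℝ := t n / W n with hp
    have hp0 : 0 < p := by positivity
    have hpε : ε ≤ p := by rw [hp, le_div_iff₀ hWn]; exact hnt
    have hWN1 : W n * (1 + p) ≤ W N := by
      have h3 : W (n + 1) ≤ W N := hWmono hnN
      have h4 : W (n + 1) = W n + t n := by simp [hW, Finset.sum_range_succ]
      have h5 : W n * (1 + p) = W n + t n := by rw [hp]; field_simp
      linarith
    have h3 : (1 + |Real.log p|) ^ 2 * W n ≤ 16 * (1 + Real.log N) ^ 2 * W N := by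
      rcases le_total p 1 with hp1 | hp1
      · have h4 : |Real.log p| ≤ 4 * Real.log N := by
          rw [abs_of_nonpos (Real.log_nonpos hp0.le hp1)]
          have h5 : Real.log ε ≤ Real.log p := Real.log_le_log hε0 hpε
          have h6 : Real.log ε = - (4 * Real.log N) := by
            rw [hε, one_div, Real.log_inv, Real.log_pow]; push_cast; ring
          linarith
        have h5 : (1 + |Real.log p|) ^ 2 ≤ 16 * (1 + Real.log N) ^ 2 := by
          have h6 : 1 + |Real.log p| ≤ 4 * (1 + Real.log N) := by linarith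
          have h7 := pow_le_pow_left₀ (by positivity) h6 2
          calc (1 + |Real.log p|) ^ 2 ≤ (4 * (1 + Real.log N)) ^ 2 := h7
            _ = _ := by ring
        exact mul_le_mul h5 (hWmono hnN.le) hWn.le (by positivity)
      · have h4 : (1 + |Real.log p|) ^ 2 ≤ 4 * (1 + p) := by
          rw [abs_of_nonneg (Real.log_nonneg hp1)]
          have h5 : Real.log p ≤ 2 * (Real.sqrt p - 1) := by
            have h6 : Real.log p = 2 * Real.log (Real.sqrt p) := by
              rw [Real.log_sqrt hp0.le]; ring
            rw [h6]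
            have := Real.log_le_sub_one_of_pos (Real.sqrt_pos.2 hp0)
            linarith
          have h6 : 1 + Real.log p ≤ 2 * Real.sqrt p := by linarith
          have h7 : 0 ≤ 1 + Real.log p := by
            have := Real.log_nonneg hp1
            linarith
          have h8 := pow_le_pow_left₀ h7 h6 2
          rw [mul_pow, Real.sq_sqrt hp0.le] at h8
          linarith
        calc (1 + |Real.log p|) ^ 2 * W n ≤ 4 * (1 + p) * W n :=
              mul_le_mul_of_nonneg_right h4 hWn.le
          _ = 4 * (W n * (1 + p)) := by ring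
          _ ≤ 4 * W N := by linarith
          _ ≤ 16 * (1 + Real.log N) ^ 2 * W N := by nlinarith [sq_nonneg (Real.log N), mul_nonneg hlogN hWN.le, mul_nonneg (sq_nonneg (Real.log N)) hWN.le]
    have h4 : ∑ k ∈ Finset.range n, ((n:ℝ) - k) ^ 2 * t k ≤
        16 * D * (1 + Real.log N) ^ 2 * W N := by
      calc _ ≤ D * (1 + |Real.log p|) ^ 2 * W n := h1
        _ = D * ((1 + |Real.log p|) ^ 2 * W n) := by ring
        _ ≤ D * (16 * (1 + Real.log N) ^ 2 * W N) := mul_le_mul_of_nonneg_left h3 (by linarith)
        _ = _ := by ring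
    have h5 : W N ≤ D * (1 + Real.log N) ^ 2 * W N := by
      have : 1 ≤ D * (1 + Real.log N) ^ 2 := by nlinarith [sq_nonneg (Real.log N)]
      nlinarith
    calc _ ≤ 16 * D * (1 + Real.log N) ^ 2 * W N + W N := add_le_add h4 h2
      _ ≤ 16 * D * (1 + Real.log N) ^ 2 * W N + D * (1 + Real.log N) ^ 2 * W N := by linarith
      _ = _ := by ring
  · refine ⟨0, ?_⟩
    rw [Finset.not_nonempty_iff_eq_empty] at hSe
    have hafter : ∀ k, 0 < k → k < N → t k < ε * W k := by
      intro k hk1 hk2
      by_contra hcon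
      push Not at hcon
      have : k ∈ S := by
        rw [hS, Finset.mem_filter, Finset.mem_range]
        exact ⟨hk2, by omega, hcon⟩
      rw [hSe] at this
      simp at this
    have h2 := htail 0 (by omega) hafter
    refine le_trans ?_ (h2.trans hbig)
    rw [← Finset.sum_filter_add_sum_filter_not (Finset.range N) (fun k => 0 < k)]
    have : ∑ k ∈ (Finset.range N).filter (fun k => ¬ 0 < k), ((k:ℝ) - (0:ℕ)) ^ 2 * t k = 0 := by
      apply Finset.sum_eq_zero
      intro k hk
      rw [Finset.mem_filter] at hk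
      have : k = 0 := by omega
      subst this
      simp
    rw [this, add_zero]

end Pool.Agent.Helper80.Width
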